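import Mathlib

set_option autoImplicit false

/-!
# Neighborhood growth on the Hamming plane: definitions
-/

namespace Pool.Agent.helper55.NG

/-- The rectangle `R_{a,b} = {0, …, a-1} × {0, …, b-1}`. -/
def rect (a b : ℕ) : Set (ℕ × ℕ) := {p | p.1 < a ∧ p.2 < b}

/-- A zero-set: a finite union of rectangles `R_{a,b}` with `a, b ≥ 1`. -/
def IsZeroSet (Z : Set (ℕ × ℕ)) : Prop :=
  ∃ I : Finset (ℕ × ℕ), (∀ q ∈ I, 1 ≤ q.1 ∧ 1 ≤ q.2) ∧ Z = ⋃ q ∈ I, rect q.1 q.2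

/-- `row(x, A)`: the number (possibly infinite) of points of `A` on the horizontal line through
`x`. -/
noncomputable def row (x : ℕ × ℕ) (A : Set (ℕ × ℕ)) : ℕ∞ := {y | y ∈ A ∧ y.2 = x.2}.encard

/-- `col(x, A)`: the number (possibly infinite) of points of `A` on the vertical line through
`x`. -/
noncomputable def col (x : ℕ × ℕ) (A : Set (ℕ × ℕ)) : ℕ∞ := {y | y ∈ A ∧ y.1 = x.1}.encard

/-- The map `𝒯`: `A ∪ {x ∉ A : (row(x, A), col(x, A)) ∉ Z}`. -/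
def grow (Z A : Set (ℕ × ℕ)) : Set (ℕ × ℕ) :=
  A ∪ {x | x ∉ A ∧ ¬ ∃ z ∈ Z, row x A = (z.1 : ℕ∞) ∧ col x A = (z.2 : ℕ∞)}

/-- The iterates `𝒯^t(A)`. -/
def evol (Z A : Set (ℕ × ℕ)) (t : ℕ) : Set (ℕ × ℕ) := (grow Z)^[t] A

/-- `A` spans for `Z`: the union of all `𝒯^t(A)` is the whole plane. -/
def Spans (Z A : Set (ℕ × ℕ)) : Prop := ⋃ t, evol Z A t = Set.univ

/-- `τ` is the spanning time of `A`: the least `t` such that `𝒯^t(A)` is the whole plane. -/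
def IsSpanningTime (Z A : Set (ℕ × ℕ)) (τ : ℕ) : Prop := IsLeast {t | evol Z A t = Set.univ} τ

/-- `A` is finite and `k`-thin: every `x ∈ A` satisfies `row(x, A) ≤ k` or `col(x, A) ≤ k`. -/
def KThin (k : ℕ) (A : Set (ℕ × ℕ)) : Prop := A.Finite ∧ ∀ x ∈ A, row x A ≤ k ∨ col x A ≤ k

/-- The set of all spanning times of finite `k`-thin spanning sets. -/
def times (k : ℕ) (Z : Set (ℕ × ℕ)) : Set ℕ :=
  {τ | ∃ A, KThin k A ∧ Spans Z A ∧ IsSpanningTime Z A τ}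

/-- `μ^k_th(Z)`: the largest spanning time of a finite `k`-thin spanning set. -/
noncomputable def mu (k : ℕ) (Z : Set (ℕ × ℕ)) : ℕ := sSup (times k Z)

end Pool.Agent.helper55.NG
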