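import Mathlib

set_option autoImplicit false

/-!
# Chains of class changes

Abstract combinatorial core: lines (rows and columns) change their classes over time, every
class change has a predecessor one time unit earlier, and the chain of predecessors is short.
-/

namespace Pool.Agent.helper55.NG

/-- The classes in `(x, y]` are fast from time `t` on: a row cannot change its class more than `C`
times in consecutive time steps while its class before the changes is in `(x, y]`. -/
def Fast {I : Type*} (kap : I → ℕ → ℤ) (C t : ℕ) (x y : ℤ) : Prop :=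
  ∀ i v L, t ≤ v → (∀ m < L, kap i (v + m + 1) < kap i (v + m) ∧ x < kap i (v + m) ∧
    kap i (v + m) ≤ y) → L ≤ C

theorem Fast.mono {I : Type*} {kap : I → ℕ → ℤ} {C t t' : ℕ} {x x' y y' : ℤ}
    (h : Fast kap C t x y) (ht : t ≤ t') (hx : x ≤ x') (hy : y' ≤ y) : Fast kap C t' x' y' := by
  intro i v L hv hL
  exact h i v L (ht.trans hv) fun m hm =>
    ⟨(hL m hm).1, lt_of_le_of_lt hx (hL m hm).2.1, (hL m hm).2.2.trans hy⟩

theorem fast_single {I : Type*} (kap : I → ℕ → ℤ) {C : ℕ} (hC : 1 ≤ C) (t : ℕ) {x y : ℤ}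
    (hxy : y ≤ x + 1) : Fast kap C t x y := by
  intro i v L _ hL
  by_contra hlt
  have h0 := hL 0 (by omega)
  have h1 := hL 1 (by omega)
  simp only [Nat.add_zero] at h0
  omega

/-- Half of the data of a chain. -/
structure Half {I J : Type*} (kap : I → ℕ → ℤ) (ell : J → ℕ → ℤ) (th : ℤ) (T0 : ℕ) (P : ℕ → ℕ)
    (C N : ℕ) : Prop where
  kap_anti : ∀ i t, kap i (t + 1) ≤ kap i t
  ell_mono : ∀ j t, ell j t ≤ ell j (t + 1)
  P_anti : ∀ t, P (t + 1) ≤ P t
  kap_le : ∀ i t, kap i t ≤ th + N
  ell_le : ∀ j t, ell j t ≤ th + N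
  U1 : ∀ i t, T0 ≤ t → kap i (t + 2) < kap i (t + 1) → th < kap i (t + 1) →
    kap i t = kap i (t + 1) →
    P (t + 1) < P t ∧ ∃ j, ell j t < kap i (t + 1) ∧ kap i (t + 1) ≤ ell j (t + 1)
  U2 : ∀ j t, T0 ≤ t → ell j (t + 1) < ell j (t + 2) → th ≤ ell j (t + 1) →
    ell j t < th ∨ (th ≤ ell j t ∧ ell j t < ell j (t + 1) ∧ P (t + 1) < P t) ∨
    ∃ i, kap i (t + 1) < kap i t ∧ ell j t < kap i t ∧ th < kap i t
  fast : ∀ j t, T0 ≤ t → ell j t < ell j (t + 1) →
    Fast kap C (t + 1) (max (ell j t) th) (ell j (t + 1))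

/-- The region `(th, e]` is divided by the cuts `S` into blocks, each of which is fast. -/
def Good {I : Type*} (kap : I → ℕ → ℤ) (th : ℤ) (C t : ℕ) (e : ℤ) (S : Finset ℤ) : Prop :=
  (∀ s ∈ S, th < s ∧ s < e) ∧
  ∀ x y, th ≤ x → y ≤ e → (∀ s ∈ S, s ≤ x ∨ y ≤ s) → Fast kap C t x y

section Good

variable {I : Type*} {kap : I → ℕ → ℤ} {th : ℤ} {C t : ℕ} {e : ℤ} {S : Finset ℤ}

theorem good_fresh (hC : 1 ≤ C) (t : ℕ) (e : ℤ) : Good kap th C t e (Finset.Ioo th e) := by
  refine ⟨fun s hs => by simpa using hs, fun x y hx hy hs => fast_single kap hC t ?_⟩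
  by_contra hlt
  push Not at hlt
  have := hs (x + 1) (by rw [Finset.mem_Ioo]; omega)
  omega

theorem Good.extend (h : Good kap th C t e S) {t' : ℕ} (ht : t ≤ t') {e' : ℤ} (he : e ≤ e')
    (hth : th ≤ e) (hf : e < e' → Fast kap C t' e e') :
    ∃ S' : Finset ℤ, Good kap th C t' e' S' ∧ S'.card ≤ S.card + 1 := by
  rcases he.eq_or_lt with rfl | he
  · exact ⟨S, ⟨h.1, fun x y hx hy hs => (h.2 x y hx hy hs).mono ht le_rfl le_rfl⟩, by omega⟩
  have hf := hf he
  rcases hth.eq_or_lt with rfl | hth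
  · refine ⟨∅, ⟨by simp, fun x y hx hy _ => hf.mono le_rfl hx hy⟩, by simp⟩
  · refine ⟨insert e S, ⟨?_, ?_⟩, Finset.card_insert_le _ _⟩
    · intro s hs
      rw [Finset.mem_insert] at hs
      rcases hs with rfl | hs
      · exact ⟨hth, he⟩
      · exact ⟨(h.1 s hs).1, (h.1 s hs).2.trans he⟩
    · intro x y hx hy hs
      rcases hs e (Finset.mem_insert_self _ _) with h1 | h1
      · exact hf.mono le_rfl h1 hy
      · exact (h.2 x y hx h1 fun s hs' => hs s (Finset.mem_insert_of_mem hs')).mono ht le_rfl le_rfl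

theorem Good.restrict (h : Good kap th C t e S) {t' : ℕ} (ht : t ≤ t') {e' : ℤ} (he : e' ≤ e) :
    Good kap th C t' e' (S.filter (· < e')) := by
  refine ⟨?_, ?_⟩
  · intro s hs
    rw [Finset.mem_filter] at hs
    exact ⟨(h.1 s hs.1).1, hs.2⟩
  · intro x y hx hy hs
    refine (h.2 x y hx (hy.trans he) fun s hs' => ?_).mono ht le_rfl le_rfl
    by_cases hse : s < e'
    · exact hs s (Finset.mem_filter.2 ⟨hs', hse⟩)
    · right; omega

/-- A run of a row through the region `(e', e]`. -/
theorem Good.count (h : Good kap th C t e S) {e' : ℤ} (hth : th ≤ e')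
    {i : I} {v L : ℕ} (hv : t ≤ v)
    (hL : ∀ m < L, kap i (v + m + 1) < kap i (v + m) ∧ e' < kap i (v + m) ∧ kap i (v + m) ≤ e) :
    L ≤ C * ((S.filter (e' < ·)).card + 1) := by
  classical
  set lab : ℕ → ℕ := fun m => (S.filter fun s => kap i (v + m) ≤ s).card with hlab
  have hmono : ∀ m m', m ≤ m' → m' < L → kap i (v + m') ≤ kap i (v + m) := by
    intro m m' hmm
    induction m', hmm using Nat.le_induction with
    | base => exact fun _ => le_rfl
    | succ n hn ih =>
      intro hn'
      have := (hL n (by omega)).1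
      have h2 := ih (by omega)
      rw [← Nat.add_assoc]
      omega
  have himg : (Finset.range L).image lab ⊆ Finset.range ((S.filter (e' < ·)).card + 1) := by
    intro a ha
    rw [Finset.mem_image] at ha
    obtain ⟨m, hm, rfl⟩ := ha
    rw [Finset.mem_range] at hm ⊢
    refine Nat.lt_succ_of_le (Finset.card_le_card ?_)
    intro s hs
    rw [Finset.mem_filter] at hs ⊢
    exact ⟨hs.1, lt_of_lt_of_le (hL m hm).2.1 hs.2⟩
  have hfib : ∀ a ∈ (Finset.range L).image lab,
      ((Finset.range L).filter fun m => lab m = a).card ≤ C := by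
    intro a ha
    set M := (Finset.range L).filter fun m => lab m = a with hM
    have hne : M.Nonempty := by
      rw [Finset.mem_image] at ha
      obtain ⟨m, hm, rfl⟩ := ha
      exact ⟨m, Finset.mem_filter.2 ⟨hm, rfl⟩⟩
    set m1 := M.min' hne with hm1
    set m2 := M.max' hne with hm2
    have h1 : m1 ∈ M := M.min'_mem hne
    have h2 : m2 ∈ M := M.max'_mem hne
    rw [hM, Finset.mem_filter, Finset.mem_range] at h1 h2
    have h12 : m1 ≤ m2 := M.min'_le m2 (M.max'_mem hne)
    have hsub : M ⊆ Finset.Icc m1 m2 := by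
      intro m hm
      rw [Finset.mem_Icc]
      exact ⟨M.min'_le m hm, M.le_max' m hm⟩
    refine (Finset.card_le_card hsub).trans ?_
    rw [Nat.card_Icc]
    have hfast : Fast kap C t (kap i (v + m2) - 1) (kap i (v + m1)) := by
      refine h.2 _ _ ?_ (hL m1 h1.1).2.2 ?_
      · have := (hL m2 h2.1).2.1
        omega
      · intro s hs
        by_contra hcon
        push Not at hcon
        have hlt : lab m1 < lab m2 := by
          apply Finset.card_lt_card
          rw [Finset.ssubset_iff_of_subset]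
          · exact ⟨s, Finset.mem_filter.2 ⟨hs, by omega⟩, fun hs' => by
              rw [Finset.mem_filter] at hs'
              omega⟩
          · intro s' hs'
            rw [Finset.mem_filter] at hs' ⊢
            exact ⟨hs'.1, (hmono m1 m2 h12 h2.1).trans hs'.2⟩
        rw [h1.2, h2.2] at hlt
        exact lt_irrefl _ hlt
    refine hfast i (v + m1) (m2 + 1 - m1) (by omega) ?_
    intro m hm
    have hm' : m1 + m < L := by omega
    have := (hL (m1 + m) hm').1
    have h3 := hmono m1 (m1 + m) (by omega) hm'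
    have h4 := hmono (m1 + m) m2 (by omega) h2.1
    rw [Nat.add_assoc v m1 m]
    refine ⟨this, by omega, h3⟩
  calc L = (Finset.range L).card := (Finset.card_range L).symm
    _ ≤ C * ((Finset.range L).image lab).card := by
        exact Finset.card_le_mul_card_image _ C hfib
    _ ≤ C * ((S.filter (e' < ·)).card + 1) := by
        refine Nat.mul_le_mul_left _ ?_
        simpa using Finset.card_le_card himg

end Good

/-- Bounds for the events at time `t` (class changes between `t` and `t + 1`). -/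
def Bd {I J : Type*} (kap : I → ℕ → ℤ) (ell : J → ℕ → ℤ) (th : ℤ) (P : ℕ → ℕ) (C R t : ℕ) : Prop :=
  ∀ j, ell j t < ell j (t + 1) → th < ell j (t + 1) →
    ∃ S : Finset ℤ, Good kap th C (t + 1) (ell j (t + 1)) S ∧
      t + 1 + (3 * C + 1) * P t + C * S.card ≤ R + (2 * C + 1)

def Bd2 {I : Type*} (kap : I → ℕ → ℤ) (th : ℤ) (P : ℕ → ℕ) (C R t : ℕ) :
    Prop :=
  ∀ i, kap i (t + 1) < kap i t → th < kap i t → ∀ e, th ≤ e → e < kap i t →
    ∃ S : Finset ℤ, Good kap th C (t + 1) e S ∧ t + 1 + (3 * C + 1) * P t + C * S.card ≤ R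

section step

variable {I J : Type*} {kap : I → ℕ → ℤ} {ell : J → ℕ → ℤ} {th : ℤ} {T0 : ℕ} {P : ℕ → ℕ}
  {C N : ℕ}

theorem Half.P_le (H : Half kap ell th T0 P C N) {s t : ℕ} (h : s ≤ t) : P t ≤ P s := by
  induction t, h using Nat.le_induction with
  | base => exact le_rfl
  | succ n _ ih => exact (H.P_anti n).trans ih

theorem bd2_step (H : Half kap ell th T0 P C N) (hC : 1 ≤ C) {t : ℕ} (ht : T0 ≤ t)
    (ih : ∀ t', T0 ≤ t' → t' < t →
      Bd kap ell th P C (T0 + (3 * C + 1) * P T0 + C * N) t') :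
    Bd2 kap th P C (T0 + (3 * C + 1) * P T0 + C * N) t := by
  classical
  intro i hi hth e he1 he2
  -- start of the own run
  have hex : ∃ v, T0 ≤ v ∧ v ≤ t ∧ (∀ u, v ≤ u → u ≤ t → kap i (u + 1) < kap i u) ∧
      (v = T0 ∨ (T0 < v ∧ kap i (v - 1) = kap i v)) := by
    have hP : ∃ v, T0 ≤ v ∧ v ≤ t ∧ (∀ u, v ≤ u → u ≤ t → kap i (u + 1) < kap i u) :=
      ⟨t, ht, le_rfl, fun u h1 h2 => by
        have : u = t := le_antisymm h2 h1
        rw [this]; exact hi⟩
    refine ⟨Nat.find hP, (Nat.find_spec hP).1, (Nat.find_spec hP).2.1, (Nat.find_spec hP).2.2, ?_⟩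
    by_contra hcon
    push Not at hcon
    have h1 := (Nat.find_spec hP).1
    have h2 : T0 < Nat.find hP := lt_of_le_of_ne h1 (Ne.symm hcon.1)
    have h3 := hcon.2 h2
    have hlt : Nat.find hP - 1 < Nat.find hP := by omega
    apply Nat.find_min hP hlt
    refine ⟨by omega, by have := (Nat.find_spec hP).2.1; omega, fun u hu1 hu2 => ?_⟩
    rcases hu1.eq_or_lt with rfl | hu1
    · have := H.kap_anti i (Nat.find hP - 1)
      have h4 : Nat.find hP - 1 + 1 = Nat.find hP := by omega
      rw [h4] at this ⊢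
      exact lt_of_le_of_ne this (Ne.symm h3)
    · exact (Nat.find_spec hP).2.2 u (by omega) hu2
  obtain ⟨v, hv1, hv2, hrun, hv3⟩ := hex
  have hmono : ∀ u, v ≤ u → u ≤ t → kap i t + ((t - u : ℕ) : ℤ) ≤ kap i u := by
    intro u hu1 hu2
    induction hu2 using Nat.decreasingInduction with
    | self => simp
    | of_succ k hk ihk =>
      have h1 := ihk (by omega)
      have h2 := hrun k hu1 (by omega)
      have h3 : ((t - k : ℕ) : ℤ) = ((t - (k + 1) : ℕ) : ℤ) + 1 := by omega
      omega
  rcases hv3 with rfl | ⟨hv3, hv4⟩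
  · -- the run goes back to `T0`
    refine ⟨Finset.Ioo th e, good_fresh hC _ _, ?_⟩
    have h1 := hmono v le_rfl hv2
    have h2 := H.kap_le i v
    have h3 : (Finset.Ioo th e).card ≤ (e - th).toNat := by
      rw [Int.card_Ioo]; omega
    have h4 : t + 1 ≤ v + (th + N - e).toNat := by omega
    have h5 : (th + N - e).toNat + C * (e - th).toNat ≤ C * N := by
      have h6 : N = (th + N - e).toNat + (e - th).toNat := by omega
      calc (th + N - e).toNat + C * (e - th).toNat
          ≤ C * (th + N - e).toNat + C * (e - th).toNat :=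
            Nat.add_le_add_right (Nat.le_mul_of_pos_left _ hC) _
        _ = C * ((th + N - e).toNat + (e - th).toNat) := by ring
        _ = C * N := by rw [← h6]
    have h7 : C * (Finset.Ioo th e).card ≤ C * (e - th).toNat := Nat.mul_le_mul_left _ h3
    have h8 : (3 * C + 1) * P t ≤ (3 * C + 1) * P v := Nat.mul_le_mul_left _ (H.P_le hv2)
    omega
  · obtain ⟨w, rfl⟩ : ∃ w, v = w + 1 := ⟨v - 1, by omega⟩
    simp only [Nat.add_sub_cancel] at hv4
    have hw : T0 ≤ w := by omega
    have hkv : kap i t ≤ kap i (w + 1) := by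
      have := hmono (w + 1) le_rfl hv2
      omega
    obtain ⟨hPd, j, hj1, hj2⟩ := H.U1 i w hw (hrun (w + 1) le_rfl hv2) (by omega) hv4
    obtain ⟨S, hS, hbd⟩ := ih w hw (by omega) j (by omega) (by omega)
    refine ⟨S.filter (· < e), hS.restrict (by omega) (by omega), ?_⟩
    have hcount := hS.count (e' := e) he1 (i := i) (v := w + 1) (L := t + 1 - (w + 1)) le_rfl
      (fun m hm => by
        refine ⟨hrun _ (by omega) (by omega), ?_, ?_⟩
        · have := hmono (w + 1 + m) (by omega) (by omega)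
          omega
        · have h1 : ∀ m, w + 1 + m ≤ t → kap i (w + 1 + m) ≤ kap i (w + 1) := by
            intro m
            induction m with
            | zero => intro _; exact le_rfl
            | succ m ihm =>
              intro hm
              have := ihm (by omega)
              have h2 := H.kap_anti i (w + 1 + m)
              exact h2.trans this
          exact (h1 m (by omega)).trans hj2)
    have hcard : (S.filter (· < e)).card + (S.filter (e < ·)).card ≤ S.card := by
      rw [← Finset.card_union_of_disjoint]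
      · exact Finset.card_le_card (Finset.union_subset (Finset.filter_subset _ _)
          (Finset.filter_subset _ _))
      · rw [Finset.disjoint_left]
        intro s hs hs'
        rw [Finset.mem_filter] at hs hs'
        omega
    have h1 : P t ≤ P (w + 1) := H.P_le hv2
    have h2 : (3 * C + 1) * P t ≤ (3 * C + 1) * P (w + 1) := Nat.mul_le_mul_left _ h1
    have h3 : (3 * C + 1) * P (w + 1) + (3 * C + 1) ≤ (3 * C + 1) * P w := by
      calc (3 * C + 1) * P (w + 1) + (3 * C + 1) = (3 * C + 1) * (P (w + 1) + 1) := by ring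
        _ ≤ _ := Nat.mul_le_mul_left _ hPd
    have h4 : C * (S.filter (· < e)).card + C * (S.filter (e < ·)).card ≤ C * S.card := by
      rw [← Nat.mul_add]; exact Nat.mul_le_mul_left _ hcard
    have h5 : C * ((S.filter (e < ·)).card + 1) = C * (S.filter (e < ·)).card + C := by ring
    omega

theorem bd_step {kap' : J → ℕ → ℤ} (hk : ∀ j t, kap' j t = - ell j t)
    (H : Half kap ell th T0 P C N) (hC : 1 ≤ C)
    {t : ℕ} (ht : T0 ≤ t)
    (ih : ∀ t', T0 ≤ t' → t' < t → Bd kap ell th P C (T0 + (3 * C + 1) * P T0 + C * N) t')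
    (ih2 : ∀ t', T0 ≤ t' → t' < t → Bd2 kap th P C (T0 + (3 * C + 1) * P T0 + C * N) t')
    (ih2' : ∀ t', T0 ≤ t' → t' ≤ t → Bd2 kap' (-th) P C (T0 + (3 * C + 1) * P T0 + C * N) t') :
    Bd kap ell th P C (T0 + (3 * C + 1) * P T0 + C * N) t := by
  classical
  intro j hj hth
  by_cases hA : ell j t < th
  · obtain ⟨S, _, hS⟩ := ih2' t ht le_rfl j (by rw [hk, hk]; omega) (by rw [hk]; omega) (-th)
      le_rfl (by rw [hk]; omega)
    refine ⟨∅, ⟨by simp, fun x y hx hy _ => ?_⟩, ?_⟩
    · refine (H.fast j t ht hj).mono le_rfl ?_ hy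
      rw [max_eq_right hA.le]; exact hx
    · simp only [Finset.card_empty, Nat.mul_zero]
      omega
  push Not at hA
  rcases ht.eq_or_lt with rfl | ht
  · refine ⟨Finset.Ioo th (ell j (T0 + 1)), good_fresh hC _ _, ?_⟩
    have h3 : (Finset.Ioo th (ell j (T0 + 1))).card ≤ N := by
      have := H.ell_le j (T0 + 1)
      rw [Int.card_Ioo]; omega
    have h4 := Nat.mul_le_mul_left C h3
    omega
  obtain ⟨u, rfl⟩ : ∃ u, t = u + 1 := ⟨t - 1, by omega⟩
  have hu : T0 ≤ u := by omega
  have hP1 : (3 * C + 1) * P (u + 1) ≤ (3 * C + 1) * P u := Nat.mul_le_mul_left _ (H.P_anti u)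
  have hf1 : Fast kap C (u + 1 + 1) (ell j (u + 1)) (ell j (u + 1 + 1)) := by
    have := H.fast j (u + 1) (by omega) hj
    rwa [max_eq_left hA] at this
  rcases H.U2 j u hu hj hA with h | ⟨h1, h2, h3⟩ | ⟨i, hi1, hi2, hi3⟩
  · -- crossing
    obtain ⟨S, _, hS⟩ := ih2' u hu (by omega) j (by rw [hk, hk]; omega) (by rw [hk]; omega) (-th)
      le_rfl (by rw [hk]; omega)
    have hg : Good kap th C (u + 1) (ell j (u + 1)) ∅ := by
      refine ⟨by simp, fun x y hx hy _ => ?_⟩
      refine (H.fast j u hu (by omega)).mono le_rfl ?_ hy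
      rw [max_eq_right h.le]; exact hx
    obtain ⟨S', hS', hc⟩ := hg.extend (t' := u + 1 + 1) (by omega) (e' := ell j (u + 1 + 1)) hj.le hA
      (fun _ => hf1)
    refine ⟨S', hS', ?_⟩
    have h4 := Nat.mul_le_mul_left C hc
    simp only [Finset.card_empty, Nat.zero_add, Nat.mul_one] at h4
    omega
  · obtain ⟨S, hS, hbd⟩ := ih u hu (by omega) j h2 (by omega)
    obtain ⟨S', hS', hc⟩ := hS.extend (t' := u + 1 + 1) (by omega) (e' := ell j (u + 1 + 1)) hj.le hA
      (fun _ => hf1)
    refine ⟨S', hS', ?_⟩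
    have h4 := Nat.mul_le_mul_left C hc
    have h5 : C * (S.card + 1) = C * S.card + C := by ring
    have h6 : (3 * C + 1) * P (u + 1) + (3 * C + 1) ≤ (3 * C + 1) * P u := by
      calc (3 * C + 1) * P (u + 1) + (3 * C + 1) = (3 * C + 1) * (P (u + 1) + 1) := by ring
        _ ≤ _ := Nat.mul_le_mul_left _ h3
    omega
  · obtain ⟨S, hS, hbd⟩ := ih2 u hu (by omega) i hi1 hi3 (max (ell j u) th) (le_max_right _ _)
      (max_lt hi2 hi3)
    obtain ⟨S', hS', hc⟩ := hS.extend (t' := u + 1) le_rfl (e' := ell j (u + 1))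
      (max_le (H.ell_mono j u) hA) (le_max_right _ _) (fun hlt => by
        refine H.fast j u hu ?_
        exact lt_of_le_of_lt (le_max_left _ _) hlt)
    obtain ⟨S'', hS'', hc'⟩ := hS'.extend (t' := u + 1 + 1) (by omega) (e' := ell j (u + 1 + 1))
      hj.le hA (fun _ => hf1)
    refine ⟨S'', hS'', ?_⟩
    have h4 : S''.card ≤ S.card + 2 := by omega
    have h5 := Nat.mul_le_mul_left C h4
    have h6 : C * (S.card + 2) = C * S.card + 2 * C := by ring
    omega

end step

/-- The chain theorem: every class change happens early. -/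
theorem chain_bound {I J : Type*} {kap : I → ℕ → ℤ} {ell : J → ℕ → ℤ} {th : ℤ} {T0 : ℕ} {P : ℕ → ℕ}
    {C N : ℕ} (hC : 1 ≤ C) (H : Half kap ell th T0 P C N)
    (H' : Half (fun j t => - ell j t) (fun i t => - kap i t) (-th) T0 P C N) {t : ℕ}
    (ht : (∃ i, kap i (t + 1) < kap i t) ∨ (∃ j, ell j t < ell j (t + 1))) :
    t + 1 ≤ T0 + (3 * C + 1) * P T0 + C * N + (2 * C + 1) := by
  classical
  rcases lt_or_ge t T0 with htT | htT
  · omega
  have key : ∀ t, T0 ≤ t →
      Bd2 kap th P C (T0 + (3 * C + 1) * P T0 + C * N) t ∧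
      Bd2 (fun j t => - ell j t) (-th) P C (T0 + (3 * C + 1) * P T0 + C * N) t ∧
      Bd kap ell th P C (T0 + (3 * C + 1) * P T0 + C * N) t ∧
      Bd (fun j t => - ell j t) (fun i t => - kap i t) (-th) P C
        (T0 + (3 * C + 1) * P T0 + C * N) t := by
    intro t
    induction t using Nat.strong_induction_on with
    | _ t ih =>
      intro htT
      have a1 := bd2_step H hC htT fun t' h1 h2 => (ih t' h2 h1).2.2.1
      have a2 := bd2_step H' hC htT fun t' h1 h2 => (ih t' h2 h1).2.2.2
      refine ⟨a1, a2, ?_, ?_⟩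
      · refine bd_step (fun j t => rfl) H hC htT (fun t' h1 h2 => (ih t' h2 h1).2.2.1)
          (fun t' h1 h2 => (ih t' h2 h1).1) (fun t' h1 h2 => ?_)
        rcases h2.eq_or_lt with rfl | h2
        · exact a2
        · exact (ih t' h2 h1).2.1
      · refine bd_step (kap' := fun i t => - (fun i t => - kap i t) i t)
          (fun j t => rfl) H' hC htT
          (fun t' h1 h2 => (ih t' h2 h1).2.2.2)
          (fun t' h1 h2 => (ih t' h2 h1).2.1) (fun t' h1 h2 => ?_)
        simp only [neg_neg]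
        rcases h2.eq_or_lt with rfl | h2
        · exact a1
        · exact (ih t' h2 h1).1
  obtain ⟨k1, k2, k3, k4⟩ := key t htT
  rcases ht with ⟨i, hi⟩ | ⟨j, hj⟩
  · by_cases h : th < kap i t
    · obtain ⟨S, _, hS⟩ := k1 i hi h th le_rfl h
      omega
    · obtain ⟨S, _, hS⟩ := k4 i (by simpa using hi) (by simp only; omega)
      omega
  · by_cases h : ell j t < th
    · obtain ⟨S, _, hS⟩ := k2 j (by simpa using hj) (by simp only; omega) (-th) le_rfl
        (by simp only; omega)
      omega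
    · obtain ⟨S, _, hS⟩ := k3 j hj (by omega)
      omega

end Pool.Agent.helper55.NG
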