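import Mathlib
import Pool.Agent.helper55.NG.Chain

set_option autoImplicit false

/-!
# Finite systems of rows and columns

A system has finitely many rows `I` and columns `J`, an initial set `A` of occupied sites, and
functions `rc`, `cc` giving the class of a row, resp. column, in terms of the number of its occupied
sites. A site becomes occupied when the class of its row is at most the class of its column.
-/

namespace Pool.Agent.helper55.NG

open Finset Classical

/-- A system. -/
@[ext] structure Sys (I J : Type) where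
  A : I → J → Prop
  rc : ℕ → ℤ
  cc : ℕ → ℤ
  lo : ℤ
  hi : ℤ
  rc_anti : Antitone rc
  cc_mono : Monotone cc
  rc_mem : ∀ x, lo ≤ rc x ∧ rc x ≤ hi
  cc_mem : ∀ x, lo ≤ cc x ∧ cc x ≤ hi
  rc_surj : ∀ c, lo ≤ c → c ≤ hi → ∃ x, rc x = c
  cc_surj : ∀ c, lo ≤ c → c ≤ hi → ∃ x, cc x = c

namespace Sys

variable {I J : Type}

/-- The system with rows and columns exchanged. -/
def dual (S : Sys I J) : Sys J I where
  A := fun j i => S.A i j
  rc := fun y => - S.cc y
  cc := fun x => - S.rc x
  lo := - S.hi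
  hi := - S.lo
  rc_anti := fun _ _ h => neg_le_neg (S.cc_mono h)
  cc_mono := fun _ _ h => neg_le_neg (S.rc_anti h)
  rc_mem := fun x => ⟨neg_le_neg (S.cc_mem x).2, neg_le_neg (S.cc_mem x).1⟩
  cc_mem := fun x => ⟨neg_le_neg (S.rc_mem x).2, neg_le_neg (S.rc_mem x).1⟩
  rc_surj := fun c h1 h2 => by
    obtain ⟨x, hx⟩ := S.cc_surj (-c) (by omega) (by omega)
    exact ⟨x, by omega⟩
  cc_surj := fun c h1 h2 => by
    obtain ⟨x, hx⟩ := S.rc_surj (-c) (by omega) (by omega)
    exact ⟨x, by omega⟩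

theorem dual_dual (S : Sys I J) : S.dual.dual = S := by
  ext <;> simp [dual]

/-- threshold: a row has class `< c` iff it has at least `w c` occupied sites. -/
noncomputable def w (S : Sys I J) (c : ℤ) : ℕ := sInf {x | S.rc x < c}

/-- threshold: a column has class `≥ c` iff it has at least `h c` occupied sites. -/
noncomputable def h (S : Sys I J) (c : ℤ) : ℕ := sInf {y | c ≤ S.cc y}

theorem w_le (S : Sys I J) {c : ℤ} (hc : S.lo < c) {x : ℕ} : S.w c ≤ x ↔ S.rc x < c := by
  constructor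
  · intro hx
    have hne : {x | S.rc x < c}.Nonempty := by
      obtain ⟨y, hy⟩ := S.rc_surj S.lo le_rfl ((S.rc_mem 0).1.trans (S.rc_mem 0).2)
      exact ⟨y, show S.rc y < c by omega⟩
    have h1 : S.rc (S.w c) < c := Nat.sInf_mem hne
    exact (S.rc_anti hx).trans_lt h1
  · intro hx
    exact Nat.sInf_le hx

theorem lt_w (S : Sys I J) {c : ℤ} (hc : S.lo < c) {x : ℕ} : x < S.w c ↔ c ≤ S.rc x := by
  rw [← not_le, S.w_le hc, not_lt]

theorem h_le (S : Sys I J) {c : ℤ} (hc : c ≤ S.hi) {y : ℕ} : S.h c ≤ y ↔ c ≤ S.cc y := by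
  constructor
  · intro hx
    have hne : {y | c ≤ S.cc y}.Nonempty := by
      obtain ⟨y, hy⟩ := S.cc_surj S.hi ((S.rc_mem 0).1.trans (S.rc_mem 0).2) le_rfl
      exact ⟨y, show c ≤ S.cc y by omega⟩
    have h1 : c ≤ S.cc (S.h c) := Nat.sInf_mem hne
    exact h1.trans (S.cc_mono hx)
  · intro hx
    exact Nat.sInf_le hx

theorem lt_h (S : Sys I J) {c : ℤ} (hc : c ≤ S.hi) {y : ℕ} : y < S.h c ↔ S.cc y < c := by
  rw [← not_le, S.h_le hc, not_le]

theorem h_lt_h (S : Sys I J) {c c' : ℤ} (hc : S.lo ≤ c) (hcc : c < c') (hc' : c' ≤ S.hi) :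
    S.h c < S.h c' := by
  rw [S.lt_h hc']
  obtain ⟨y, hy⟩ := S.cc_surj c hc (by omega)
  have h1 : S.h c ≤ y := (S.h_le (by omega)).2 hy.ge
  exact (S.cc_mono h1).trans_lt (by omega)

variable [Fintype I] [Fintype J]

/-- occupied sites at time `t` -/
noncomputable def occ (S : Sys I J) : ℕ → I → J → Prop
  | 0 => S.A
  | t + 1 => fun i j => occ S t i j ∨
      S.rc (#{j' | occ S t i j'}) ≤ S.cc (#{i' | occ S t i' j})

/-- number of occupied sites in row `i` at time `t` -/
noncomputable def X (S : Sys I J) (i : I) (t : ℕ) : ℕ := #{j | S.occ t i j}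

/-- number of occupied sites in column `j` at time `t` -/
noncomputable def Y (S : Sys I J) (j : J) (t : ℕ) : ℕ := #{i | S.occ t i j}

/-- class of row `i` at time `t` -/
noncomputable def kap (S : Sys I J) (i : I) (t : ℕ) : ℤ := S.rc (S.X i t)

/-- class of column `j` at time `t` -/
noncomputable def ell (S : Sys I J) (j : J) (t : ℕ) : ℤ := S.cc (S.Y j t)

variable (S : Sys I J)

theorem occ_zero {i : I} {j : J} : S.occ 0 i j ↔ S.A i j := Iff.rfl

theorem occ_succ' {t : ℕ} {i : I} {j : J} :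
    S.occ (t + 1) i j ↔ S.occ t i j ∨ S.kap i t ≤ S.ell j t := Iff.rfl

theorem occ_mono {t t' : ℕ} (h : t ≤ t') {i : I} {j : J} (ho : S.occ t i j) : S.occ t' i j := by
  induction t', h using Nat.le_induction with
  | base => exact ho
  | succ n _ ih => exact Or.inl ih

theorem X_mono (i : I) : Monotone (S.X i) := fun _ _ h =>
  card_le_card (monotone_filter_right _ fun _ _ ho => S.occ_mono h ho)

theorem Y_mono (j : J) : Monotone (S.Y j) := fun _ _ h =>
  card_le_card (monotone_filter_right _ fun _ _ ho => S.occ_mono h ho)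

theorem kap_anti (i : I) : Antitone (S.kap i) := fun _ _ h => S.rc_anti (S.X_mono i h)

theorem ell_mono (j : J) : Monotone (S.ell j) := fun _ _ h => S.cc_mono (S.Y_mono j h)

theorem occ_succ {t : ℕ} {i : I} {j : J} :
    S.occ (t + 1) i j ↔ S.A i j ∨ S.kap i t ≤ S.ell j t := by
  induction t with
  | zero => exact Iff.rfl
  | succ t ih =>
    rw [occ_succ', ih]
    constructor
    · rintro ((h | h) | h)
      · exact Or.inl h
      · exact Or.inr (((S.kap_anti i (Nat.le_succ t)).trans h).trans (S.ell_mono j (Nat.le_succ t)))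
      · exact Or.inr h
    · rintro (h | h)
      · exact Or.inl (Or.inl h)
      · exact Or.inr h

theorem X_zero (i : I) : S.X i 0 = #{j | S.A i j} := rfl

theorem Y_zero (j : J) : S.Y j 0 = #{i | S.A i j} := rfl

theorem X_succ (i : I) (t : ℕ) : S.X i (t + 1) = #{j | S.A i j ∨ S.kap i t ≤ S.ell j t} := by
  unfold X
  congr 1
  ext j
  simp only [mem_filter, mem_univ, true_and, occ_succ]

theorem Y_succ (j : J) (t : ℕ) : S.Y j (t + 1) = #{i | S.A i j ∨ S.kap i t ≤ S.ell j t} := by
  unfold Y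
  congr 1
  ext i
  simp only [mem_filter, mem_univ, true_and, occ_succ]

theorem dual_occ (t : ℕ) (i : I) (j : J) : S.dual.occ t j i ↔ S.occ t i j := by
  induction t generalizing i j with
  | zero => exact Iff.rfl
  | succ t ih =>
    rw [occ_succ', occ_succ', ih]
    have h1 : S.dual.kap j t = - S.ell j t := by
      unfold kap ell X Y
      simp only [ih]
      rfl
    have h2 : S.dual.ell i t = - S.kap i t := by
      unfold kap ell X Y
      simp only [ih]
      rfl
    rw [h1, h2, neg_le_neg_iff]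

theorem dual_X (j : J) (t : ℕ) : S.dual.X j t = S.Y j t := by
  unfold X Y
  simp only [dual_occ]

theorem dual_Y (i : I) (t : ℕ) : S.dual.Y i t = S.X i t := by
  unfold X Y
  simp only [dual_occ]

theorem dual_kap (j : J) (t : ℕ) : S.dual.kap j t = - S.ell j t := by
  unfold kap ell
  rw [dual_X]
  rfl

theorem dual_ell (i : I) (t : ℕ) : S.dual.ell i t = - S.kap i t := by
  unfold kap ell
  rw [dual_Y]
  rfl

/-- number of columns of class at least `c` -/
noncomputable def beta (c : ℤ) (t : ℕ) : ℕ := #{j | c ≤ S.ell j t}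

theorem beta_mono (c : ℤ) : Monotone (S.beta c) := fun _ _ h =>
  card_le_card (monotone_filter_right _ fun _ _ ho => ho.trans (S.ell_mono _ h))

theorem beta_anti {c c' : ℤ} (h : c ≤ c') (t : ℕ) : S.beta c' t ≤ S.beta c t :=
  card_le_card (monotone_filter_right _ fun _ _ ho => h.trans ho)

theorem beta_le_X (i : I) (t : ℕ) : S.beta (S.kap i t) t ≤ S.X i (t + 1) := by
  rw [X_succ]
  exact card_le_card (monotone_filter_right _ fun _ _ ho => Or.inr ho)

theorem X_le_beta (i : I) (t : ℕ) :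
    S.X i (t + 1) ≤ #{j | S.A i j} + S.beta (S.kap i t) t := by
  rw [X_succ, filter_or]
  exact card_union_le _ _

/-- The class `c` is tight at time `t`. -/
def Tight (k : ℕ) (c : ℤ) (t : ℕ) : Prop := S.w c ≤ S.beta c t + k

theorem Tight.mono {S : Sys I J} {k : ℕ} {c : ℤ} {t t' : ℕ} (h : S.Tight k c t) (ht : t ≤ t') :
    S.Tight k c t' := h.trans (Nat.add_le_add_right (S.beta_mono c ht) _)

/-- The potential of the row classes. -/
noncomputable def pot (th : ℤ) (t : ℕ) : ℕ := ∑ c ∈ Ioc th S.hi, (S.w c - S.beta c t)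

theorem pot_anti (th : ℤ) : Antitone (S.pot th) := fun _ _ h =>
  sum_le_sum fun _ _ => Nat.sub_le_sub_left (S.beta_mono _ h) _

theorem pot_lt {th : ℤ} {t : ℕ} {c : ℤ} (hc : th < c) (hc' : c ≤ S.hi)
    (h1 : S.beta c t < S.w c) (h2 : S.beta c t < S.beta c (t + 1)) :
    S.pot th (t + 1) < S.pot th t := by
  refine sum_lt_sum (fun _ _ => Nat.sub_le_sub_left (S.beta_mono _ (Nat.le_succ t)) _)
    ⟨c, mem_Ioc.2 ⟨hc, hc'⟩, ?_⟩
  omega

theorem pot_le {th : ℤ} {t k : ℕ} (h : ∀ c, th < c → c ≤ S.hi → S.Tight k c t) :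
    S.pot th t ≤ (S.hi - th).toNat * k := by
  calc S.pot th t ≤ ∑ _c ∈ Ioc th S.hi, k := by
        refine sum_le_sum fun c hc => ?_
        rw [mem_Ioc] at hc
        have := h c hc.1 hc.2
        unfold Tight at this
        omega
    _ = (S.hi - th).toNat * k := by
        rw [sum_const, Int.card_Ioc, smul_eq_mul]

theorem kap_mem (i : I) (t : ℕ) : S.lo ≤ S.kap i t ∧ S.kap i t ≤ S.hi := S.rc_mem _

theorem ell_mem (j : J) (t : ℕ) : S.lo ≤ S.ell j t ∧ S.ell j t ≤ S.hi := S.cc_mem _

/-- If row `i` has class `c` at times `t` and `t + 1`, and column `j` crosses `c` between `t` and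
`t + 1`, then the potential decreases. -/
theorem pot_lt_of_rest {th : ℤ} {t : ℕ} {i : I} {j : J} (hth : S.lo ≤ th) (hc : th < S.kap i t)
    (h1 : S.kap i (t + 1) = S.kap i t) (h2 : S.ell j t < S.kap i t)
    (h3 : S.kap i t ≤ S.ell j (t + 1)) : S.pot th (t + 1) < S.pot th t := by
  refine S.pot_lt hc (S.kap_mem i t).2 ?_ ?_
  · refine lt_of_le_of_lt (S.beta_le_X i t) ?_
    rw [S.lt_w (by omega)]
    exact h1.ge
  · unfold beta
    apply card_lt_card
    rw [ssubset_iff_of_subset (monotone_filter_right _ fun _ _ ho =>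
      ho.trans (S.ell_mono _ (Nat.le_succ t)))]
    exact ⟨j, by simpa using h3, by simpa using h2⟩

theorem U1 {th : ℤ} (hth : S.lo ≤ th) {i : I} {t : ℕ} (h1 : S.kap i (t + 2) < S.kap i (t + 1))
    (h2 : th < S.kap i (t + 1)) (h3 : S.kap i t = S.kap i (t + 1)) :
    S.pot th (t + 1) < S.pot th t ∧
      ∃ j, S.ell j t < S.kap i (t + 1) ∧ S.kap i (t + 1) ≤ S.ell j (t + 1) := by
  have hX : S.X i (t + 1) < S.X i (t + 2) := by
    by_contra hcon
    push Not at hcon
    exact absurd (S.rc_anti hcon) (not_le.2 h1)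
  have hj : ∃ j, S.ell j t < S.kap i (t + 1) ∧ S.kap i (t + 1) ≤ S.ell j (t + 1) := by
    by_contra hcon
    push Not at hcon
    refine absurd hX (not_lt.2 ?_)
    rw [X_succ, X_succ]
    refine card_le_card (monotone_filter_right _ fun j _ ho => ?_)
    rcases ho with ho | ho
    · exact Or.inl ho
    · right
      rw [h3]
      by_contra hlt
      exact absurd (hcon j (not_le.1 hlt)) (not_lt.2 ho)
  obtain ⟨j, hj1, hj2⟩ := hj
  exact ⟨S.pot_lt_of_rest (i := i) (j := j) hth (by rw [h3]; exact h2) h3.symm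
    (by rw [h3]; exact hj1) (by rw [h3]; exact hj2), j, hj1, hj2⟩

theorem U2 {th : ℤ} (hth : S.lo ≤ th) {j : J} {t : ℕ} (h1 : S.ell j (t + 1) < S.ell j (t + 2)) :
    S.ell j t < th ∨
    (th ≤ S.ell j t ∧ S.ell j t < S.ell j (t + 1) ∧ S.pot th (t + 1) < S.pot th t) ∨
    ∃ i, S.kap i (t + 1) < S.kap i t ∧ S.ell j t < S.kap i t ∧ th < S.kap i t := by
  by_cases hlt : S.ell j t < th
  · exact Or.inl hlt
  right
  push Not at hlt
  have hY : S.Y j (t + 1) < S.Y j (t + 2) := by
    by_contra hcon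
    push Not at hcon
    exact absurd (S.cc_mono hcon) (not_le.2 h1)
  have hi : ∃ i, S.ell j t < S.kap i t ∧ S.kap i (t + 1) ≤ S.ell j (t + 1) := by
    by_contra hcon
    push Not at hcon
    refine absurd hY (not_lt.2 ?_)
    rw [Y_succ, Y_succ]
    refine card_le_card (monotone_filter_right _ fun i _ ho => ?_)
    rcases ho with ho | ho
    · exact Or.inl ho
    · right
      by_contra hlt
      exact absurd (hcon i (not_le.1 hlt)) (not_lt.2 ho)
  obtain ⟨i, hi1, hi2⟩ := hi
  have hle : S.kap i (t + 1) ≤ S.kap i t := S.kap_anti i (Nat.le_succ t)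
  rcases hle.lt_or_eq with h | h
  · exact Or.inr ⟨i, h, hi1, by omega⟩
  · left
    exact ⟨hlt, by omega, S.pot_lt_of_rest hth (by omega) h hi1 (by omega)⟩

end Sys

end Pool.Agent.helper55.NG
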