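import Mathlib
import Pool.Agent.helper55.NG.Defs
import Pool.Agent.helper55.NG.Sys

set_option autoImplicit false

/-!
# Zero-sets and classes; the plane and finite boxes
-/

namespace Pool.Agent.helper55.NG

open Finset Classical

/-- Classes of row counts and of column counts describing the zero-set `Z`. -/
structure ClassData (Z : Set (ℕ × ℕ)) where
  rc : ℕ → ℤ
  cc : ℕ → ℤ
  p : ℕ
  M : ℕ
  rc_anti : Antitone rc
  cc_mono : Monotone cc
  rc_mem : ∀ x, 0 ≤ rc x ∧ rc x ≤ p
  cc_mem : ∀ x, 0 ≤ cc x ∧ cc x ≤ p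
  rc_surj : ∀ c : ℤ, 0 ≤ c → c ≤ p → ∃ x, rc x = c
  cc_surj : ∀ c : ℤ, 0 ≤ c → c ≤ p → ∃ x, cc x = c
  spec : ∀ x y, (x, y) ∈ Z ↔ cc y < rc x
  rc_M : ∀ x, M ≤ x → rc x = 0
  cc_M : ∀ y, M ≤ y → cc y = p
  /-- a count `y` of the same class as the row count `x` -/
  ht : ℕ → ℕ
  cc_ht : ∀ x, cc (ht x) = rc x
  ht_pos : ∀ x, 0 < rc x → 0 < ht x

theorem IsZeroSet.down {Z : Set (ℕ × ℕ)} (hZ : IsZeroSet Z) {x y x' y' : ℕ} (h : (x, y) ∈ Z)
    (hx : x' ≤ x) (hy : y' ≤ y) : (x', y') ∈ Z := by
  obtain ⟨I, -, rfl⟩ := hZ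
  simp only [Set.mem_iUnion, rect, exists_prop] at h ⊢
  obtain ⟨q, hq, h1, h2⟩ := h
  exact ⟨q, hq, hx.trans_lt h1, hy.trans_lt h2⟩

theorem IsZeroSet.bdd {Z : Set (ℕ × ℕ)} (hZ : IsZeroSet Z) :
    ∃ M, ∀ x y, (x, y) ∈ Z → x < M ∧ y < M := by
  obtain ⟨I, -, rfl⟩ := hZ
  refine ⟨I.sup (fun q => q.1 + q.2), fun x y h => ?_⟩
  simp only [Set.mem_iUnion, rect, exists_prop] at h
  obtain ⟨q, hq, h1, h2⟩ := h
  have h3 : q.1 + q.2 ≤ I.sup (fun q => q.1 + q.2) := Finset.le_sup (f := fun q => q.1 + q.2) hq
  have h1' : x < q.1 := h1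
  have h2' : y < q.2 := h2
  omega

theorem exists_classData {Z : Set (ℕ × ℕ)} (hZ : IsZeroSet Z) : Nonempty (ClassData Z) := by
  obtain ⟨M, hM⟩ := hZ.bdd
  set H : ℕ → ℕ := fun x => sInf {y | (x, y) ∉ Z} with hH
  have hne : ∀ x, {y | (x, y) ∉ Z}.Nonempty := fun x => ⟨M, fun h => lt_irrefl _ (hM x M h).2⟩
  have hspec : ∀ x y, (x, y) ∈ Z ↔ y < H x := by
    intro x y
    constructor
    · intro h
      by_contra hcon
      exact Nat.sInf_mem (hne x) (hZ.down h le_rfl (not_lt.1 hcon))
    · intro h
      by_contra hcon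
      exact absurd (Nat.sInf_le (s := {y | (x, y) ∉ Z}) hcon) (not_le.2 h)
  have hanti : Antitone H := by
    intro x x' hx
    by_contra hcon
    have h1 := (hspec x' (H x)).2 (not_le.1 hcon)
    exact lt_irrefl _ ((hspec x (H x)).1 (hZ.down h1 hx le_rfl))
  have hHM : ∀ x, M ≤ x → H x = 0 := by
    intro x hx
    by_contra hcon
    have := (hM x 0 ((hspec x 0).2 (Nat.pos_of_ne_zero hcon))).1
    omega
  have hHle : ∀ x, H x ≤ M := by
    intro x
    by_contra hcon
    exact lt_irrefl _ (hM x M ((hspec x M).2 (not_le.1 hcon))).2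
  set vals : Finset ℕ := (range (M + 1)).image H with hvals
  have hmem : ∀ x, H x ∈ vals := by
    intro x
    rcases le_or_gt x M with h | h
    · exact mem_image_of_mem _ (mem_range.2 (by omega))
    · rw [hHM x h.le, ← hHM M le_rfl]
      exact mem_image_of_mem _ (mem_range.2 (by omega))
  have h0 : 0 ∈ vals := by rw [← hHM M le_rfl]; exact hmem M
  set P : ℕ → Prop := fun v => v ∈ vals with hP
  have hset : ∀ hf : (Set.ofPred P).Finite, hf.toFinset = vals := by
    intro hf
    ext v
    rw [Set.Finite.mem_toFinset]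
    exact Iff.rfl
  have hcard : ∀ n, Nat.count P n ≤ vals.card := by
    intro n
    rw [Nat.count_eq_card_filter_range]
    refine card_le_card fun v hv => ?_
    rw [mem_filter] at hv
    exact hv.2
  have hpos : 0 < vals.card := card_pos.2 ⟨0, h0⟩
  have hnth : ∀ c, c < vals.card → Nat.nth P c ∈ vals ∧ Nat.count P (Nat.nth P c) = c := by
    intro c hc
    have h1 : ∀ hf : (Set.ofPred P).Finite, c < hf.toFinset.card := fun hf => by rw [hset hf]; exact hc
    exact ⟨Nat.nth_mem c h1, Nat.count_nth h1⟩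
  have hlt : ∀ v ∈ vals, Nat.count P (v + 1) = Nat.count P v + 1 := by
    intro v hv
    rw [Nat.count_succ, if_pos hv]
  refine ⟨{ rc := fun x => (Nat.count P (H x) : ℤ)
            cc := fun y => (Nat.count P (y + 1) : ℤ) - 1
            p := vals.card - 1
            M := M
            rc_anti := ?_
            cc_mono := ?_
            rc_mem := ?_
            cc_mem := ?_
            rc_surj := ?_
            cc_surj := ?_
            spec := ?_
            rc_M := ?_
            cc_M := ?_
            ht := H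
            cc_ht := ?_
            ht_pos := ?_ }⟩
  · intro x x' hx
    have := Nat.count_monotone P (hanti hx)
    change (Nat.count P (H x') : ℤ) ≤ (Nat.count P (H x) : ℤ)
    omega
  · intro y y' hy
    have := Nat.count_monotone P (Nat.add_le_add_right hy 1)
    change (Nat.count P (y + 1) : ℤ) - 1 ≤ (Nat.count P (y' + 1) : ℤ) - 1
    omega
  · intro x
    have h1 := hlt (H x) (hmem x)
    have h2 := hcard (H x + 1)
    omega
  · intro y
    have h1 := hlt 0 h0
    have h2 := hcard (y + 1)
    have h3 : Nat.count P (0 + 1) ≤ Nat.count P (y + 1) := Nat.count_monotone P (by omega)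
    omega
  · intro c hc hc'
    obtain ⟨h1, h2⟩ := hnth c.toNat (by omega)
    rw [hvals, mem_image] at h1
    obtain ⟨x, -, hx⟩ := h1
    refine ⟨x, ?_⟩
    rw [hx, h2]
    omega
  · intro c hc hc'
    obtain ⟨h1, h2⟩ := hnth c.toNat (by omega)
    refine ⟨Nat.nth P c.toNat, ?_⟩
    rw [hlt _ h1, h2]
    omega
  · intro x y
    rw [hspec]
    have h1 := hlt (H x) (hmem x)
    constructor
    · intro h
      have h2 : Nat.count P (y + 1) ≤ Nat.count P (H x) := Nat.count_monotone P (by omega)
      omega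
    · intro h
      by_contra hcon
      have h2 : Nat.count P (H x + 1) ≤ Nat.count P (y + 1) := Nat.count_monotone P (by omega)
      omega
  · intro x hx
    rw [hHM x hx]
    simp
  · intro y hy
    have h1 : Nat.count P (y + 1) = vals.card := by
      rw [Nat.count_eq_card_filter_range]
      congr 1
      ext v
      rw [mem_filter, mem_range]
      refine ⟨fun h => h.2, fun h => ⟨?_, h⟩⟩
      rw [hvals, mem_image] at h
      obtain ⟨x, -, hx⟩ := h
      have := hHle x
      omega
    rw [h1]
    omega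
  · intro x
    have := hlt (H x) (hmem x)
    omega
  · intro x hx
    by_contra hcon
    have h1 : H x = 0 := by omega
    rw [h1] at hx
    simp at hx

namespace ClassData

variable {Z : Set (ℕ × ℕ)} (D : ClassData Z) {I J : Type}

/-- The system with initial set `A` and the classes of `Z`. -/
def sys (A : I → J → Prop) : Sys I J where
  A := A
  rc := D.rc
  cc := D.cc
  lo := 0
  hi := D.p
  rc_anti := D.rc_anti
  cc_mono := D.cc_mono
  rc_mem := D.rc_mem
  cc_mem := D.cc_mem
  rc_surj := D.rc_surj
  cc_surj := D.cc_surj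

/-- The box system of a set `A` in the plane. -/
def box (A : Set (ℕ × ℕ)) (N : ℕ) : Sys (Fin N) (Fin N) :=
  D.sys fun i j => ((j : ℕ), (i : ℕ)) ∈ A

/-- Representative in the box. -/
def rep (n m : ℕ) (i : ℕ) : Fin (n + m + 1) := ⟨min i n, by omega⟩

theorem rep_rep (n m i : ℕ) : rep n m (rep n m i) = rep n m i := by
  ext
  simp [rep]

variable {A : Set (ℕ × ℕ)} {n : ℕ}

theorem box_rep (hA : ∀ x ∈ A, x.1 < n ∧ x.2 < n) (t : ℕ) (i j : Fin (n + D.M + 1)) :
    (D.box A (n + D.M + 1)).occ t i j ↔ (D.box A (n + D.M + 1)).occ t (rep n D.M i) (rep n D.M j) := by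
  induction t generalizing i j with
  | zero =>
    change ((j : ℕ), (i : ℕ)) ∈ A ↔ ((rep n D.M j : ℕ), (rep n D.M i : ℕ)) ∈ A
    by_cases h : (i : ℕ) < n ∧ (j : ℕ) < n
    · have h1 : ((rep n D.M j : Fin _) : ℕ) = j := by simp [rep]; omega
      have h2 : ((rep n D.M i : Fin _) : ℕ) = i := by simp [rep]; omega
      rw [h1, h2]
    · constructor
      · intro h'
        have := hA _ h'
        exact absurd ⟨this.2, this.1⟩ h
      · intro h'
        have := hA _ h'
        simp only [rep] at this
        omega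
  | succ t ih =>
    rw [Sys.occ_succ', Sys.occ_succ', ← ih i j]
    have h1 : (D.box A (n + D.M + 1)).kap i t = (D.box A (n + D.M + 1)).kap (rep n D.M i) t := by
      unfold Sys.kap Sys.X
      congr 2
      ext j'
      simp only [mem_filter, mem_univ, true_and]
      rw [ih i j', ih (rep n D.M i) j', rep_rep]
    have h2 : (D.box A (n + D.M + 1)).ell j t = (D.box A (n + D.M + 1)).ell (rep n D.M j) t := by
      unfold Sys.ell Sys.Y
      congr 2
      ext i'
      simp only [mem_filter, mem_univ, true_and]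
      rw [ih i' j, ih i' (rep n D.M j), rep_rep]
    rw [h1, h2]

/-- Counting a line of the plane. -/
theorem encard_line {m : ℕ} {Q : Fin (n + m + 1) → Prop}
    (hQ : ∀ j, Q j ↔ Q (rep n m j)) :
    (Q (rep n m n) ∧ {a : ℕ | Q (rep n m a)}.encard = ⊤ ∧ m < #{j | Q j}) ∨
    {a : ℕ | Q (rep n m a)}.encard = (#{j | Q j} : ℕ) := by
  by_cases h : Q (rep n m n)
  · left
    refine ⟨h, ?_, ?_⟩
    · rw [Set.encard_eq_top_iff]
      refine Set.Infinite.mono (s := Set.Ici n) ?_ (Set.Ici_infinite n)
      intro a ha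
      have h1 : rep n m a = rep n m n := by
        ext
        simp only [rep]
        have : n ≤ a := ha
        omega
      change Q (rep n m a)
      rw [h1]; exact h
    · have h1 : (univ.filter fun j : Fin (n + m + 1) => n ≤ j) ⊆ (univ.filter fun j => Q j) := by
        intro j hj
        rw [mem_filter] at hj ⊢
        refine ⟨mem_univ _, ?_⟩
        rw [hQ]
        have h2 : rep n m j = rep n m n := by
          ext
          simp only [rep]
          omega
        rw [h2]; exact h
      refine lt_of_lt_of_le ?_ (card_le_card h1)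
      have h3 : (univ.filter fun j : Fin (n + m + 1) => n ≤ (j : ℕ)) =
          Finset.Ici (⟨n, by omega⟩ : Fin (n + m + 1)) := by
        ext j
        simp [Fin.le_def]
      rw [h3, Fin.card_Ici]
      simp only
      omega
  · right
    have h1 : {a : ℕ | Q (rep n m a)} = ((univ.filter fun j => Q j).map Fin.valEmbedding : Finset ℕ) := by
      ext a
      rw [mem_coe, mem_map]
      constructor
      · intro ha
        have ha' : Q (rep n m a) := ha
        have hlt : a < n := by
          by_contra hcon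
          apply h
          have h2 : rep n m a = rep n m n := by
            ext
            simp only [rep]
            omega
          rwa [h2] at ha'
        refine ⟨⟨a, by omega⟩, mem_filter.2 ⟨mem_univ _, ?_⟩, rfl⟩
        rw [hQ]
        exact ha'
      · rintro ⟨j, hj, rfl⟩
        rw [mem_filter] at hj
        change Q (rep n m (j : ℕ))
        rw [← hQ]
        exact hj.2
    rw [h1, Set.encard_coe_eq_coe_finsetCard, card_map]

theorem mem_evol (hA : ∀ x ∈ A, x.1 < n ∧ x.2 < n) (t : ℕ) (x : ℕ × ℕ) :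
    x ∈ evol Z A t ↔ (D.box A (n + D.M + 1)).occ t (rep n D.M x.2) (rep n D.M x.1) := by
  induction t generalizing x with
  | zero =>
    change x ∈ A ↔ ((rep n D.M x.1 : ℕ), (rep n D.M x.2 : ℕ)) ∈ A
    by_cases h : x.1 < n ∧ x.2 < n
    · have h1 : ((rep n D.M x.1 : Fin _) : ℕ) = x.1 := by simp [rep]; omega
      have h2 : ((rep n D.M x.2 : Fin _) : ℕ) = x.2 := by simp [rep]; omega
      rw [h1, h2]
    · constructor
      · intro h'
        exact absurd (hA _ h') h
      · intro h'
        have := hA _ h'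
        simp only [rep] at this
        omega
  | succ t ih =>
    set S := D.box A (n + D.M + 1) with hS
    have hstep : evol Z A (t + 1) = grow Z (evol Z A t) := Function.iterate_succ_apply' _ _ _
    rw [hstep, Sys.occ_succ', ← ih]
    have hrow : row x (evol Z A t) = {a : ℕ | S.occ t (rep n D.M x.2) (rep n D.M a)}.encard := by
      unfold row
      have : {y | y ∈ evol Z A t ∧ y.2 = x.2} =
          (fun a : ℕ => (a, x.2)) '' {a : ℕ | S.occ t (rep n D.M x.2) (rep n D.M a)} := by
        ext y
        constructor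
        · rintro ⟨h1, h2⟩
          rw [ih] at h1
          exact ⟨y.1, by rw [← h2]; exact h1, by rw [← h2]⟩
        · rintro ⟨a, ha, rfl⟩
          exact ⟨(ih _).2 ha, rfl⟩
      rw [this, Set.InjOn.encard_image (fun a _ b _ h => (Prod.mk.inj h).1)]
    have hcol : col x (evol Z A t) = {b : ℕ | S.occ t (rep n D.M b) (rep n D.M x.1)}.encard := by
      unfold col
      have : {y | y ∈ evol Z A t ∧ y.1 = x.1} =
          (fun b : ℕ => (x.1, b)) '' {b : ℕ | S.occ t (rep n D.M b) (rep n D.M x.1)} := by
        ext y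
        constructor
        · rintro ⟨h1, h2⟩
          rw [ih] at h1
          exact ⟨y.2, by rw [← h2]; exact h1, by rw [← h2]⟩
        · rintro ⟨a, ha, rfl⟩
          exact ⟨(ih _).2 ha, rfl⟩
      rw [this, Set.InjOn.encard_image (fun a _ b _ h => (Prod.mk.inj h).2)]
    have hr := encard_line (n := n) (m := D.M) (Q := fun j => S.occ t (rep n D.M x.2) j) (fun j => by
      have h1 := D.box_rep hA t (rep n D.M x.2) j
      rw [rep_rep] at h1
      exact h1)
    have hc := encard_line (n := n) (m := D.M) (Q := fun i => S.occ t i (rep n D.M x.1)) (fun i => by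
      have h1 := D.box_rep hA t i (rep n D.M x.1)
      rw [rep_rep] at h1
      exact h1)
    rw [← hrow] at hr
    rw [← hcol] at hc
    have hX : #{j | S.occ t (rep n D.M x.2) j} = S.X (rep n D.M x.2) t := rfl
    have hY : #{i | S.occ t i (rep n D.M x.1)} = S.Y (rep n D.M x.1) t := rfl
    rw [hX] at hr
    rw [hY] at hc
    have htest : (¬ ∃ z ∈ Z, row x (evol Z A t) = (z.1 : ℕ∞) ∧ col x (evol Z A t) = (z.2 : ℕ∞)) ↔
        S.kap (rep n D.M x.2) t ≤ S.ell (rep n D.M x.1) t := by
      change _ ↔ D.rc (S.X (rep n D.M x.2) t) ≤ D.cc (S.Y (rep n D.M x.1) t)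
      rcases hr with ⟨-, hr, hr'⟩ | hr
      · constructor
        · intro _
          rw [D.rc_M _ hr'.le]
          exact (D.cc_mem _).1
        · rintro - ⟨z, -, hz, -⟩
          rw [hr] at hz
          exact absurd hz.symm (ENat.natCast_ne_top _)
      · rcases hc with ⟨-, hc, hc'⟩ | hc
        · constructor
          · intro _
            rw [D.cc_M _ hc'.le]
            exact (D.rc_mem _).2
          · rintro - ⟨z, -, -, hz⟩
            rw [hc] at hz
            exact absurd hz.symm (ENat.natCast_ne_top _)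
        · rw [hr, hc]
          have h1 := D.spec (S.X (rep n D.M x.2) t) (S.Y (rep n D.M x.1) t)
          constructor
          · intro h
            by_contra hcon
            exact h ⟨_, h1.2 (not_le.1 hcon), rfl, rfl⟩
          · rintro h ⟨z, hz, hz1, hz2⟩
            have e1 : S.X (rep n D.M x.2) t = z.1 := by exact_mod_cast hz1
            have e2 : S.Y (rep n D.M x.1) t = z.2 := by exact_mod_cast hz2
            rw [e1, e2] at h h1
            exact absurd (h1.1 hz) (not_lt.2 h)
    rw [← htest]
    unfold grow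
    constructor
    · rintro (h | ⟨_, h⟩)
      · exact Or.inl h
      · exact Or.inr h
    · rintro (h | h)
      · exact Or.inl h
      · by_cases hx : x ∈ evol Z A t
        · exact Or.inl hx
        · exact Or.inr ⟨hx, h⟩

theorem evol_eq_univ (hA : ∀ x ∈ A, x.1 < n ∧ x.2 < n) (t : ℕ) :
    evol Z A t = Set.univ ↔ ∀ i j, (D.box A (n + D.M + 1)).occ t i j := by
  rw [Set.eq_univ_iff_forall]
  constructor
  · intro h i j
    rw [D.box_rep hA]
    exact (D.mem_evol hA t ((j : ℕ), (i : ℕ))).1 (h _)
  · intro h x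
    rw [D.mem_evol hA]
    exact h _ _

/-- A finite spanning set has a finite spanning time. -/
theorem exists_full (D : ClassData Z) (hA : ∀ x ∈ A, x.1 < n ∧ x.2 < n) (hs : Spans Z A) :
    ∃ t, evol Z A t = Set.univ := by
  have h1 : ∀ q : Fin (n + D.M + 1) × Fin (n + D.M + 1), ∃ t,
      (D.box A (n + D.M + 1)).occ t q.1 q.2 := by
    intro q
    have h2 : (((rep n D.M q.2 : Fin _) : ℕ), ((rep n D.M q.1 : Fin _) : ℕ)) ∈ ⋃ t, evol Z A t := by
      rw [hs]; exact Set.mem_univ _
    rw [Set.mem_iUnion] at h2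
    obtain ⟨t, ht⟩ := h2
    refine ⟨t, ?_⟩
    rw [D.mem_evol hA] at ht
    simp only at ht
    rw [rep_rep, rep_rep] at ht
    rw [D.box_rep hA]
    exact ht
  choose f hf using h1
  refine ⟨univ.sup f, (D.evol_eq_univ hA _).2 fun i j => ?_⟩
  exact Sys.occ_mono _ (Finset.le_sup (f := f) (mem_univ (i, j))) (hf (i, j))

theorem spans_of_full {t : ℕ} (h : evol Z A t = Set.univ) : Spans Z A := by
  unfold Spans
  rw [Set.eq_univ_iff_forall]
  intro x
  rw [Set.mem_iUnion]
  exact ⟨t, by rw [h]; exact Set.mem_univ _⟩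

end ClassData

end Pool.Agent.helper55.NG
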