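import Mathlib
import Pool.Agent.helper55.NG.Plane

set_option autoImplicit false

/-!
# Pure dynamics and thin spanning sets

The pure dynamics has finitely many rows and columns with given enhancements `r`, `c`. Every
time at which it occupies a new site is bounded by the spanning time of a thin spanning set.
-/

namespace Pool.Agent.helper55.NG

open Finset Classical

section gocc

variable {I J : Type} [Fintype I] [Fintype J] (rc cc : ℕ → ℤ) (r : I → ℕ) (c : J → ℕ)

/-- The pure dynamics. -/
noncomputable def gocc : ℕ → I → J → Prop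
  | 0 => fun _ _ => False
  | t + 1 => fun i j => gocc t i j ∨ (0 < r i ∧ 0 < c j ∧
      rc (r i + #{j' | gocc t i j'}) ≤ cc (c j + #{i' | gocc t i' j}))

/-- row counts -/
noncomputable def gX (t : ℕ) (i : I) : ℕ := r i + #{j | gocc rc cc r c t i j}

/-- column counts -/
noncomputable def gY (t : ℕ) (j : J) : ℕ := c j + #{i | gocc rc cc r c t i j}

variable {rc cc r c}

theorem gocc_succ' {t : ℕ} {i : I} {j : J} : gocc rc cc r c (t + 1) i j ↔
    gocc rc cc r c t i j ∨ (0 < r i ∧ 0 < c j ∧ rc (gX rc cc r c t i) ≤ cc (gY rc cc r c t j)) :=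
  Iff.rfl

theorem gocc_mono {t t' : ℕ} (h : t ≤ t') {i : I} {j : J} (ho : gocc rc cc r c t i j) :
    gocc rc cc r c t' i j := by
  induction t', h using Nat.le_induction with
  | base => exact ho
  | succ n _ ih => exact Or.inl ih

theorem gX_mono (i : I) {t t' : ℕ} (h : t ≤ t') : gX rc cc r c t i ≤ gX rc cc r c t' i :=
  Nat.add_le_add_left (card_le_card (monotone_filter_right _ fun _ _ ho => gocc_mono h ho)) _

theorem gY_mono (j : J) {t t' : ℕ} (h : t ≤ t') : gY rc cc r c t j ≤ gY rc cc r c t' j :=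
  Nat.add_le_add_left (card_le_card (monotone_filter_right _ fun _ _ ho => gocc_mono h ho)) _

variable (hrc : Antitone rc) (hcc : Monotone cc)

include hrc hcc in
theorem gocc_succ {t : ℕ} {i : I} {j : J} : gocc rc cc r c (t + 1) i j ↔
    0 < r i ∧ 0 < c j ∧ rc (gX rc cc r c t i) ≤ cc (gY rc cc r c t j) := by
  induction t with
  | zero => rw [gocc_succ']; simp [gocc]
  | succ t ih =>
    rw [gocc_succ']
    constructor
    · rintro (h | h)
      · rw [ih] at h
        exact ⟨h.1, h.2.1, ((hrc (gX_mono i (Nat.le_succ t))).trans h.2.2).trans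
          (hcc (gY_mono j (Nat.le_succ t)))⟩
      · exact h
    · exact fun h => Or.inr h

include hrc hcc in
theorem dom_col {t : ℕ} {i : I} {j j' : J} (hj : c j ≤ c j') (h : gocc rc cc r c t i j) :
    gocc rc cc r c t i j' := by
  induction t generalizing i with
  | zero => exact h
  | succ t ih =>
    rw [gocc_succ hrc hcc] at h ⊢
    refine ⟨h.1, by omega, h.2.2.trans (hcc ?_)⟩
    exact Nat.add_le_add hj (card_le_card (monotone_filter_right _ fun _ _ ho => ih ho))

include hrc hcc in
theorem dom_row {t : ℕ} {i i' : I} {j : J} (hi : r i ≤ r i') (h : gocc rc cc r c t i j) :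
    gocc rc cc r c t i' j := by
  induction t generalizing j with
  | zero => exact h
  | succ t ih =>
    rw [gocc_succ hrc hcc] at h ⊢
    refine ⟨by omega, h.2.1, (hrc ?_).trans h.2.2⟩
    exact Nat.add_le_add hi (card_le_card (monotone_filter_right _ fun _ _ ho => ih ho))

theorem gocc_dual (t : ℕ) (i : I) (j : J) :
    gocc (fun y => - cc y) (fun x => - rc x) c r t j i ↔ gocc rc cc r c t i j := by
  induction t generalizing i j with
  | zero => exact Iff.rfl
  | succ t ih =>
    rw [gocc_succ', gocc_succ', ih]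
    have h1 : gX (fun y => - cc y) (fun x => - rc x) c r t j = gY rc cc r c t j := by
      unfold gX gY
      simp only [ih]
    have h2 : gY (fun y => - cc y) (fun x => - rc x) c r t i = gX rc cc r c t i := by
      unfold gX gY
      simp only [ih]
    rw [h1, h2, neg_le_neg_iff]
    tauto

theorem gX_dual (t : ℕ) (j : J) :
    gX (fun y => - cc y) (fun x => - rc x) c r t j = gY rc cc r c t j := by
  unfold gX gY
  simp only [gocc_dual]

theorem gY_dual (t : ℕ) (i : I) :
    gY (fun y => - cc y) (fun x => - rc x) c r t i = gX rc cc r c t i := by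
  unfold gX gY
  simp only [gocc_dual]

include hrc hcc in
/-- A crude bound for the times at which new sites are occupied. -/
theorem gocc_crude {M : ℕ} (h1 : ∀ x y, M ≤ x → rc x ≤ cc y) (h2 : ∀ x y, M ≤ y → rc x ≤ cc y)
    {t : ℕ} {i : I} {j : J} (h : gocc rc cc r c (t + 1) i j) (h' : ¬ gocc rc cc r c t i j) :
    t ≤ min (#{i' | r i < r i'}) M + min (#{j' | c j < c j'}) M := by
  induction t generalizing i j with
  | zero => exact Nat.zero_le _
  | succ t ih =>
    rw [gocc_succ hrc hcc] at h h'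
    have hlt : cc (gY rc cc r c t j) < rc (gX rc cc r c t i) := by
      by_contra hcon
      exact h' ⟨h.1, h.2.1, not_lt.1 hcon⟩
    have hXM : gX rc cc r c t i < M := by
      by_contra hcon
      exact absurd (h1 _ _ (not_lt.1 hcon)) (not_le.2 hlt)
    have hYM : gY rc cc r c t j < M := by
      by_contra hcon
      exact absurd (h2 _ _ (not_lt.1 hcon)) (not_le.2 hlt)
    have hno : ¬ gocc rc cc r c (t + 1) i j := by
      rw [gocc_succ hrc hcc]; exact h'
    by_cases hA : ∃ j', gocc rc cc r c (t + 1) i j' ∧ ¬ gocc rc cc r c t i j'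
    · -- the newly occupied column with the largest enhancement
      obtain ⟨j', hj', hmax⟩ := exists_max_image
        (univ.filter fun j' => gocc rc cc r c (t + 1) i j' ∧ ¬ gocc rc cc r c t i j') c
        (by obtain ⟨j', hj'⟩ := hA; exact ⟨j', mem_filter.2 ⟨mem_univ _, hj'⟩⟩)
      rw [mem_filter] at hj'
      have h3 := ih hj'.2.1 hj'.2.2
      have h4 : c j < c j' := by
        by_contra hcon
        exact hno (dom_col hrc hcc (not_lt.1 hcon) hj'.2.1)
      have h5 : #{j'' | c j' < c j''} ≤ gX rc cc r c t i := by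
        refine le_trans (card_le_card ?_) (Nat.le_add_left _ _)
        intro j'' hj''
        rw [mem_filter] at hj'' ⊢
        refine ⟨mem_univ _, ?_⟩
        by_contra hcon
        have h6 : gocc rc cc r c (t + 1) i j'' := dom_col hrc hcc hj''.2.le hj'.2.1
        have h7 := hmax j'' (mem_filter.2 ⟨mem_univ _, h6, hcon⟩)
        omega
      have h6 : #{j'' | c j' < c j''} < #{j' | c j < c j'} := by
        apply card_lt_card
        rw [ssubset_iff_of_subset (monotone_filter_right _ fun _ _ ho => h4.trans ho)]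
        exact ⟨j', by simpa using h4, by simp⟩
      omega
    · by_cases hB : ∃ i', gocc rc cc r c (t + 1) i' j ∧ ¬ gocc rc cc r c t i' j
      · obtain ⟨i', hi', hmax⟩ := exists_max_image
          (univ.filter fun i' => gocc rc cc r c (t + 1) i' j ∧ ¬ gocc rc cc r c t i' j) r
          (by obtain ⟨i', hi'⟩ := hB; exact ⟨i', mem_filter.2 ⟨mem_univ _, hi'⟩⟩)
        rw [mem_filter] at hi'
        have h3 := ih hi'.2.1 hi'.2.2
        have h4 : r i < r i' := by
          by_contra hcon
          exact hno (dom_row hrc hcc (not_lt.1 hcon) hi'.2.1)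
        have h5 : #{i'' | r i' < r i''} ≤ gY rc cc r c t j := by
          refine le_trans (card_le_card ?_) (Nat.le_add_left _ _)
          intro i'' hi''
          rw [mem_filter] at hi'' ⊢
          refine ⟨mem_univ _, ?_⟩
          by_contra hcon
          have h6 : gocc rc cc r c (t + 1) i'' j := dom_row hrc hcc hi''.2.le hi'.2.1
          have h7 := hmax i'' (mem_filter.2 ⟨mem_univ _, h6, hcon⟩)
          omega
        have h6 : #{i'' | r i' < r i''} < #{i' | r i < r i'} := by
          apply card_lt_card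
          rw [ssubset_iff_of_subset (monotone_filter_right _ fun _ _ ho => h4.trans ho)]
          exact ⟨i', by simpa using h4, by simp⟩
        omega
      · exfalso
        push Not at hA hB
        apply h'
        refine ⟨h.1, h.2.1, ?_⟩
        have e1 : gX rc cc r c (t + 1) i = gX rc cc r c t i := by
          unfold gX
          congr 2
          ext j'
          simp only [mem_filter, mem_univ, true_and]
          exact ⟨hA j', fun h => gocc_mono (Nat.le_succ t) h⟩
        have e2 : gY rc cc r c (t + 1) j = gY rc cc r c t j := by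
          unfold gY
          congr 2
          ext i'
          simp only [mem_filter, mem_univ, true_and]
          exact ⟨hB i', fun h => gocc_mono (Nat.le_succ t) h⟩
        rw [← e1, ← e2]
        exact h.2.2

end gocc

/-- A labelling of the heavy lines of a system by the lines of a pure dynamics. -/
structure Lab {I J I' J' : Type} [Fintype I] [Fintype J] [Fintype I'] [Fintype J']
    (S : Sys I' J') (r : I → ℕ) (c : J → ℕ) (i0 : I) (j0 : J) where
  hr : I' → Prop
  hc : J' → Prop
  pr : I' → I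
  pc : J' → J
  A_cases : ∀ a b, S.A a b → (hr a ∧ ¬ hc b) ∨ (¬ hr a ∧ hc b)
  row_heavy : ∀ a, hr a → #{b | S.A a b} = r (pr a)
  row_light : ∀ a, ¬ hr a → #{b | S.A a b} ≤ 1
  col_heavy : ∀ b, hc b → #{a | S.A a b} = c (pc b)
  col_light : ∀ b, ¬ hc b → #{a | S.A a b} ≤ 1
  row_count : ∀ Q : I → Prop, (∀ i, Q i → r i0 < r i) → #{a | hr a ∧ Q (pr a)} = #{i | Q i}
  col_count : ∀ Q : J → Prop, (∀ j, Q j → c j0 < c j) → #{b | hc b ∧ Q (pc b)} = #{j | Q j}
  row_ge : ∀ a, hr a → r i0 ≤ r (pr a)
  col_ge : ∀ b, hc b → c j0 ≤ c (pc b)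
  a0 : I'
  ha0 : hr a0
  pa0 : pr a0 = i0
  b0 : J'
  hb0 : hc b0
  pb0 : pc b0 = j0
  r_pos : 0 < r i0
  c_pos : 0 < c j0

namespace Lab

variable {I J I' J' : Type} [Fintype I] [Fintype J] [Fintype I'] [Fintype J']
    {S : Sys I' J'} {r : I → ℕ} {c : J → ℕ} {i0 : I} {j0 : J}

/-- The labelling of the dual system. -/
def dual (L : Lab S r c i0 j0) : Lab S.dual c r j0 i0 where
  hr := L.hc
  hc := L.hr
  pr := L.pc
  pc := L.pr
  A_cases := fun b a h => by
    rcases L.A_cases a b h with h | h
    · exact Or.inr ⟨h.2, h.1⟩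
    · exact Or.inl ⟨h.2, h.1⟩
  row_heavy := L.col_heavy
  row_light := L.col_light
  col_heavy := L.row_heavy
  col_light := L.row_light
  row_count := L.col_count
  col_count := L.row_count
  row_ge := L.col_ge
  col_ge := L.row_ge
  a0 := L.b0
  ha0 := L.hb0
  pa0 := L.pb0
  b0 := L.a0
  hb0 := L.ha0
  pb0 := L.pa0
  r_pos := L.c_pos
  c_pos := L.r_pos

/-- heavy × heavy -/
def P1 (L : Lab S r c i0 j0) (t : ℕ) : Prop :=
  ∀ a b, L.hr a → L.hc b → (S.occ t a b ↔ gocc S.rc S.cc r c t (L.pr a) (L.pc b))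

/-- heavy row, light column -/
def P2 (L : Lab S r c i0 j0) (t : ℕ) : Prop :=
  ∀ a b, L.hr a → ¬ L.hc b → S.occ t a b → S.A a b ∨ gocc S.rc S.cc r c t (L.pr a) j0

/-- light × light -/
def P4 (L : Lab S r c i0 j0) (t : ℕ) : Prop :=
  ∀ a b, ¬ L.hr a → ¬ L.hc b → S.occ t a b → gocc S.rc S.cc r c t i0 j0

omit [Fintype I'] [Fintype J'] in
theorem gocc_dual' (t : ℕ) (i : I) (j : J) :
    gocc S.dual.rc S.dual.cc c r t j i ↔ gocc S.rc S.cc r c t i j := gocc_dual t i j

theorem dual_P1 {L : Lab S r c i0 j0} {t : ℕ} (h : L.P1 t) : L.dual.P1 t := by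
  intro b a hb ha
  rw [Sys.dual_occ, gocc_dual']
  exact h a b ha hb

theorem dual_P4 {L : Lab S r c i0 j0} {t : ℕ} (h : L.P4 t) : L.dual.P4 t := by
  intro b a hb ha ho
  rw [Sys.dual_occ] at ho
  rw [gocc_dual']
  exact h a b ha hb ho

variable (L : Lab S r c i0 j0) {t : ℕ}

theorem X_eq (h1 : L.P1 t) (h2 : L.P2 t) {a : I'} (ha : L.hr a)
    (hn : ¬ gocc S.rc S.cc r c t (L.pr a) j0) :
    S.X a t = gX S.rc S.cc r c t (L.pr a) := by
  unfold Sys.X gX
  rw [← L.row_heavy a ha, ← L.col_count (fun j => gocc S.rc S.cc r c t (L.pr a) j) (fun j hj => by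
    by_contra hcon
    exact hn (dom_col S.rc_anti S.cc_mono (not_lt.1 hcon) hj)), ← card_union_of_disjoint]
  · congr 1
    ext b
    simp only [mem_filter, mem_univ, true_and, mem_union]
    constructor
    · intro ho
      by_cases hb : L.hc b
      · exact Or.inr ⟨hb, (h1 a b ha hb).1 ho⟩
      · rcases h2 a b ha hb ho with h | h
        · exact Or.inl h
        · exact absurd h hn
    · rintro (h | ⟨hb, h⟩)
      · exact S.occ_mono (Nat.zero_le t) h
      · exact (h1 a b ha hb).2 h
  · rw [disjoint_filter]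
    rintro b - hA ⟨hb, -⟩
    rcases L.A_cases a b hA with h | h
    · exact h.2 hb
    · exact h.1 ha

theorem Y_le (h1 : L.P1 t) (h2 : L.P2 t) (h4 : L.P4 t) {b : J'} (hb : ¬ L.hc b)
    (hn : ¬ gocc S.rc S.cc r c t i0 j0) : S.Y b t ≤ S.Y L.b0 t := by
  have h5 : S.Y b t ≤ #{a | S.A a b} +
      #{a | L.hr a ∧ gocc S.rc S.cc r c t (L.pr a) j0} := by
    unfold Sys.Y
    refine (card_le_card ?_).trans (card_union_le _ _)
    intro a ha
    simp only [mem_filter, mem_univ, true_and, mem_union] at ha ⊢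
    by_cases hra : L.hr a
    · rcases h2 a b hra hb ha with h | h
      · exact Or.inl h
      · exact Or.inr ⟨hra, h⟩
    · exact absurd (h4 a b hra hb ha) hn
  have h6 : #{a | S.A a L.b0} + #{a | L.hr a ∧ gocc S.rc S.cc r c t (L.pr a) j0} ≤
      S.Y L.b0 t := by
    unfold Sys.Y
    rw [← card_union_of_disjoint]
    · refine card_le_card fun a ha => ?_
      simp only [mem_filter, mem_univ, true_and, mem_union] at ha ⊢
      rcases ha with ha | ⟨ha, ha'⟩
      · exact S.occ_mono (Nat.zero_le t) ha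
      · rw [h1 a L.b0 ha L.hb0, L.pb0]
        exact ha'
    · rw [disjoint_filter]
      rintro a - hA ⟨ha, -⟩
      rcases L.A_cases a L.b0 hA with h | h
      · exact h.2 L.hb0
      · exact h.1 ha
  have h7 := L.col_light b hb
  have h8 := L.col_heavy L.b0 L.hb0
  have h9 := L.c_pos
  rw [L.pb0] at h8
  omega

/-- All comparison statements together. -/
def All (L : Lab S r c i0 j0) (t : ℕ) : Prop := L.P1 t ∧ L.P2 t ∧ L.dual.P2 t ∧ L.P4 t

theorem Y_eq (h : L.All t) {b : J'} (hb : L.hc b) (hn : ¬ gocc S.rc S.cc r c t i0 (L.pc b)) :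
    S.Y b t = gY S.rc S.cc r c t (L.pc b) := by
  have := L.dual.X_eq (dual_P1 h.1) h.2.2.1 (a := b) hb (by
    change ¬ gocc S.dual.rc S.dual.cc c r t (L.pc b) i0
    rw [gocc_dual']; exact hn)
  rw [Sys.dual_X] at this
  rw [this]
  exact gX_dual t (L.pc b)

theorem X_le (h : L.All t) {a : I'} (ha : ¬ L.hr a)
    (hn : ¬ gocc S.rc S.cc r c t i0 j0) : S.X a t ≤ S.X L.a0 t := by
  have := L.dual.Y_le (dual_P1 h.1) h.2.2.1 (dual_P4 h.2.2.2) (b := a) ha (by
    rw [gocc_dual']; exact hn)
  rw [Sys.dual_Y, Sys.dual_Y] at this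
  exact this

theorem all_zero : L.All 0 := by
  refine ⟨fun a b ha hb => ?_, fun a b _ _ h => Or.inl h, fun a b _ _ h => Or.inl h,
    fun a b ha hb h => ?_⟩
  · constructor
    · intro h
      rcases L.A_cases a b h with h | h
      · exact absurd hb h.2
      · exact absurd ha h.1
    · intro h
      exact absurd h (by simp [gocc])
  · rcases L.A_cases a b h with h | h
    · exact absurd h.1 ha
    · exact absurd h.2 hb

theorem P2_step (h : L.All t) (hn : ¬ gocc S.rc S.cc r c t i0 j0) : L.P2 (t + 1) := by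
  intro a b ha hb ho
  rw [Sys.occ_succ'] at ho
  rcases ho with ho | ho
  · rcases h.2.1 a b ha hb ho with h' | h'
    · exact Or.inl h'
    · exact Or.inr (gocc_mono (Nat.le_succ t) h')
  · right
    by_cases hg : gocc S.rc S.cc r c t (L.pr a) j0
    · exact gocc_mono (Nat.le_succ t) hg
    · have e1 := L.X_eq h.1 h.2.1 ha hg
      have e2 := L.Y_eq h L.hb0 (by rw [L.pb0]; exact hn)
      rw [L.pb0] at e2
      have e3 := L.Y_le h.1 h.2.1 h.2.2.2 hb hn
      rw [gocc_succ S.rc_anti S.cc_mono]
      refine ⟨lt_of_lt_of_le L.r_pos (L.row_ge a ha), L.c_pos, ?_⟩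
      rw [← e1, ← e2]
      exact ho.trans (S.cc_mono e3)

theorem all_step (h : L.All t) (hn : ¬ gocc S.rc S.cc r c t i0 j0) : L.All (t + 1) := by
  have hn' : ¬ gocc S.dual.rc S.dual.cc c r t j0 i0 := by rw [gocc_dual']; exact hn
  have hd : L.dual.All t := ⟨dual_P1 h.1, h.2.2.1, by
    intro a b ha hb ho
    change (S.dual.dual).occ t a b at ho
    rw [Sys.dual_dual] at ho
    rcases h.2.1 a b ha hb ho with h' | h'
    · exact Or.inl h'
    · right
      change gocc S.dual.dual.rc S.dual.dual.cc r c t (L.pr a) j0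
      rw [gocc_dual', gocc_dual']
      exact h', dual_P4 h.2.2.2⟩
  refine ⟨fun a b ha hb => ?_, L.P2_step h hn, L.dual.P2_step hd hn', fun a b ha hb ho => ?_⟩
  · by_cases hg : gocc S.rc S.cc r c t (L.pr a) (L.pc b)
    · exact ⟨fun _ => gocc_mono (Nat.le_succ t) hg,
        fun _ => S.occ_mono (Nat.le_succ t) ((h.1 a b ha hb).2 hg)⟩
    · have e1 := L.X_eq h.1 h.2.1 ha (fun h' => hg (dom_col S.rc_anti S.cc_mono (L.col_ge b hb) h'))
      have e2 := L.Y_eq h hb (fun h' => hg (dom_row S.rc_anti S.cc_mono (L.row_ge a ha) h'))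
      rw [Sys.occ_succ', gocc_succ', h.1 a b ha hb, ← e1, ← e2]
      unfold Sys.kap Sys.ell
      have h3 : 0 < r (L.pr a) := lt_of_lt_of_le L.r_pos (L.row_ge a ha)
      have h4 : 0 < c (L.pc b) := lt_of_lt_of_le L.c_pos (L.col_ge b hb)
      tauto
  · rw [Sys.occ_succ'] at ho
    rcases ho with ho | ho
    · exact gocc_mono (Nat.le_succ t) (h.2.2.2 a b ha hb ho)
    · rw [gocc_succ S.rc_anti S.cc_mono]
      refine ⟨L.r_pos, L.c_pos, ?_⟩
      have e1 := L.X_eq h.1 h.2.1 L.ha0 (by rw [L.pa0]; exact hn)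
      have e2 := L.Y_eq h L.hb0 (by rw [L.pb0]; exact hn)
      rw [L.pa0] at e1
      rw [L.pb0] at e2
      rw [← e1, ← e2]
      exact ((S.rc_anti (L.X_le h ha hn)).trans ho).trans
        (S.cc_mono (L.Y_le h.1 h.2.1 h.2.2.2 hb hn))

theorem all_of (T : ℕ) (hT : ∀ s < T, ¬ gocc S.rc S.cc r c s i0 j0) : ∀ t ≤ T, L.All t := by
  intro t
  induction t with
  | zero => exact fun _ => L.all_zero
  | succ t ih => exact fun ht => L.all_step (ih (by omega)) (hT t (by omega))

end Lab

end Pool.Agent.helper55.NG
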