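import Mathlib
import Pool.Agent.helper55.NG.Pure

set_option autoImplicit false

/-!
# Construction of thin spanning sets

From a pure dynamics we construct a thin spanning set whose spanning time is at least the time at
which a given site is occupied.
-/

namespace Pool.Agent.helper55.NG

open Finset Classical

/-- Site `(i, j)` (row `i`, column `j`) of the constructed set. Rows `i < n1` are heavy with
`f i` points, columns `j < n2` are heavy with `g j` points. -/
def pat (n1 n2 B : ℕ) (f g : ℕ → ℕ) (i j : ℕ) : Prop :=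
  (i < n1 ∧ n2 + i * B ≤ j ∧ j < n2 + i * B + f i) ∨
  (j < n2 ∧ n1 + j * B ≤ i ∧ i < n1 + j * B + g j)

theorem pat_symm {n1 n2 B : ℕ} {f g : ℕ → ℕ} {i j : ℕ} :
    pat n1 n2 B f g i j ↔ pat n2 n1 B g f j i := or_comm

theorem block_unique {B u u' w : ℕ} (h1 : u * B ≤ w) (h2 : w < u * B + B) (h3 : u' * B ≤ w)
    (h4 : w < u' * B + B) : u = u' := by
  by_contra hne
  rcases lt_or_gt_of_ne hne with h | h
  · have : (u + 1) * B ≤ u' * B := Nat.mul_le_mul_right _ h
    rw [Nat.add_mul, Nat.one_mul] at this
    omega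
  · have : (u' + 1) * B ≤ u * B := Nat.mul_le_mul_right _ h
    rw [Nat.add_mul, Nat.one_mul] at this
    omega

theorem fin_card (N : ℕ) (P : ℕ → Prop) : #{j : Fin N | P j} = #((range N).filter P) := by
  rw [← card_map Fin.valEmbedding]
  congr 1
  ext v
  rw [mem_map, mem_filter, mem_range]
  constructor
  · rintro ⟨j, hj, rfl⟩
    rw [mem_filter] at hj
    exact ⟨j.2, hj.2⟩
  · rintro ⟨hv, hP⟩
    exact ⟨⟨v, hv⟩, mem_filter.2 ⟨mem_univ _, hP⟩, rfl⟩

section pat

variable {n1 n2 B N : ℕ} {f g : ℕ → ℕ}

theorem pat_row_heavy (hN : n1 + n2 + (n1 + n2) * B ≤ N) (hf : ∀ i, f i ≤ B) {i : ℕ}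
    (hi : i < n1) : #{j : Fin N | pat n1 n2 B f g i j} = f i := by
  rw [fin_card N (fun j => pat n1 n2 B f g i j)]
  have h1 : (range N).filter (fun j => pat n1 n2 B f g i j) =
      Ico (n2 + i * B) (n2 + i * B + f i) := by
    ext v
    rw [mem_filter, mem_range, mem_Ico]
    unfold pat
    have h2 : (i + 1) * B ≤ (n1 + n2) * B := Nat.mul_le_mul_right _ (by omega)
    rw [Nat.add_mul, Nat.one_mul] at h2
    have h3 := hf i
    constructor
    · rintro ⟨_, h | h⟩
      · exact h.2
      · omega
    · intro h
      exact ⟨by omega, Or.inl ⟨hi, h⟩⟩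
  rw [h1, Nat.card_Ico]
  omega

theorem pat_row_light (hg : ∀ j, g j ≤ B) {i : ℕ} (hi : ¬ i < n1) :
    #{j : Fin N | pat n1 n2 B f g i j} ≤ 1 := by
  rw [card_le_one]
  intro j hj j' hj'
  rw [mem_filter] at hj hj'
  rcases hj.2 with h | h
  · exact absurd h.1 hi
  rcases hj'.2 with h' | h'
  · exact absurd h'.1 hi
  have h1 := hg j
  have h2 := hg j'
  ext
  exact block_unique (B := B) (w := i - n1) (by omega) (by omega) (by omega) (by omega)

end pat

/-- labels of the heavy rows -/
noncomputable def label {I : Type} [Fintype I] (r : I → ℕ) (i0 : I) (x : ℕ) : I :=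
  if h : x < Fintype.card I then
    (if r i0 < r ((Fintype.equivFin I).symm ⟨x, h⟩) then (Fintype.equivFin I).symm ⟨x, h⟩ else i0)
  else i0

section label

variable {I : Type} [Fintype I] {r : I → ℕ} {i0 : I}

theorem label_ge (x : ℕ) : r i0 ≤ r (label r i0 x) := by
  unfold label
  split_ifs with h1 h2
  · exact h2.le
  · exact le_rfl
  · exact le_rfl

theorem label_copy {x : ℕ} (hx : Fintype.card I ≤ x) : label r i0 x = i0 := by
  unfold label
  rw [dif_neg (not_lt.2 hx)]

theorem label_count {N n1 : ℕ} (h1 : Fintype.card I ≤ n1) (h2 : n1 ≤ N) (Q : I → Prop)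
    (hQ : ∀ i, Q i → r i0 < r i) :
    #{a : Fin N | (a : ℕ) < n1 ∧ Q (label r i0 a)} = #{i | Q i} := by
  symm
  refine card_bij (fun i _ => ⟨(Fintype.equivFin I i : ℕ), by
    have := (Fintype.equivFin I i).2; omega⟩) ?_ ?_ ?_
  · intro i hi
    rw [mem_filter] at hi ⊢
    have h3 : label r i0 (Fintype.equivFin I i : ℕ) = i := by
      unfold label
      rw [dif_pos (Fintype.equivFin I i).2]
      simp [hQ i hi.2]
    refine ⟨mem_univ _, ?_, ?_⟩
    · have := (Fintype.equivFin I i).2
      simp only
      omega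
    · simp only
      rw [h3]; exact hi.2
  · intro i _ i' _ h
    simp only [Fin.mk.injEq] at h
    exact (Fintype.equivFin I).injective (Fin.ext h)
  · intro a ha
    rw [mem_filter] at ha
    obtain ⟨-, ha, hQa⟩ := ha
    have h3 := hQ _ hQa
    unfold label at h3 hQa
    split_ifs at h3 hQa with h4 h5
    · refine ⟨_, mem_filter.2 ⟨mem_univ _, hQa⟩, ?_⟩
      ext
      simp
    · exact absurd h3 (lt_irrefl _)
    · exact absurd h3 (lt_irrefl _)

end label

/-- Every time at which a pure dynamics occupies a new site is at most the spanning time of some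
thin spanning set. -/
theorem exists_thin {Z : Set (ℕ × ℕ)} (D : ClassData Z) {I J : Type} [Fintype I] [Fintype J]
    (r : I → ℕ) (c : J → ℕ) {T : ℕ} {i0 : I} {j0 : J} (hT : gocc D.rc D.cc r c T i0 j0)
    (hT' : ∀ s < T, ¬ gocc D.rc D.cc r c s i0 j0) :
    ∃ τ ∈ times 1 Z, T ≤ τ := by
  obtain ⟨T, rfl⟩ : ∃ T', T = T' + 1 := by
    rcases T with _ | T
    · exact absurd hT (by simp [gocc])
    · exact ⟨T, rfl⟩
  have hpos := (gocc_succ D.rc_anti D.cc_mono).1 hT
  set n1 := Fintype.card I + D.M + 1 with hn1
  set n2 := Fintype.card J + D.M + 1 with hn2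
  set f : ℕ → ℕ := fun x => r (label r i0 x) with hf
  set g : ℕ → ℕ := fun x => c (label c j0 x) with hg
  set B := (univ.sup r) + (univ.sup c) with hB
  have hfB : ∀ i, f i ≤ B := fun i => (le_sup (f := r) (mem_univ _)).trans (Nat.le_add_right _ _)
  have hgB : ∀ i, g i ≤ B := fun i => (le_sup (f := c) (mem_univ _)).trans (Nat.le_add_left _ _)
  set A : Set (ℕ × ℕ) := {q | pat n1 n2 B f g q.2 q.1} with hA
  set n := n1 + n2 + (n1 + n2) * B with hn
  set N := n + D.M + 1 with hN
  have hAn : ∀ x ∈ A, x.1 < n ∧ x.2 < n := by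
    intro x hx
    have h1 : ∀ u, u < n1 → u * B + B ≤ (n1 + n2) * B := by
      intro u hu
      have := Nat.mul_le_mul_right B (show u + 1 ≤ n1 + n2 by omega)
      rw [Nat.add_mul, Nat.one_mul] at this
      exact this
    have h2 : ∀ u, u < n2 → u * B + B ≤ (n1 + n2) * B := by
      intro u hu
      have := Nat.mul_le_mul_right B (show u + 1 ≤ n1 + n2 by omega)
      rw [Nat.add_mul, Nat.one_mul] at this
      exact this
    rcases hx with ⟨h3, h4, h5⟩ | ⟨h3, h4, h5⟩
    · have := h1 _ h3
      have := hfB x.2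
      constructor <;> omega
    · have := h2 _ h3
      have := hgB x.1
      constructor <;> omega
  have hfin : A.Finite := by
    refine Set.Finite.subset ((Set.finite_Iio n).prod (Set.finite_Iio n)) fun x hx => ?_
    exact ⟨(hAn x hx).1, (hAn x hx).2⟩
  have hN1 : n1 + n2 + (n1 + n2) * B ≤ N := by omega
  have hN2 : n2 + n1 + (n2 + n1) * B ≤ N := by
    have : (n2 + n1) * B = (n1 + n2) * B := by ring
    omega
  -- the labelling
  let L : Lab (D.box A N) r c i0 j0 :=
    { hr := fun a => (a : ℕ) < n1
      hc := fun b => (b : ℕ) < n2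
      pr := fun a => label r i0 a
      pc := fun b => label c j0 b
      A_cases := by
        intro a b h
        rcases h with h | h
        · exact Or.inl ⟨h.1, by simp only at h; omega⟩
        · exact Or.inr ⟨by simp only at h; omega, h.1⟩
      row_heavy := fun a ha => pat_row_heavy (N := N) hN1 hfB ha
      row_light := fun a ha => pat_row_light (N := N) hgB ha
      col_heavy := fun b hb => by
        have := pat_row_heavy (N := N) (f := g) (g := f) hN2 hgB hb
        refine Eq.trans ?_ this
        congr 1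
        ext a
        simp only [mem_filter, mem_univ, true_and]
        exact pat_symm
      col_light := fun b hb => by
        have := pat_row_light (N := N) (f := g) (g := f) (n2 := n1) hfB hb
        refine le_trans (le_of_eq ?_) this
        congr 1
        ext a
        simp only [mem_filter, mem_univ, true_and]
        exact pat_symm
      row_count := fun Q hQ => by
        have := label_count (r := r) (i0 := i0) (N := N) (n1 := n1) (by omega) (by omega) Q hQ
        convert this
      col_count := fun Q hQ => by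
        have := label_count (r := c) (i0 := j0) (N := N) (n1 := n2) (by omega) (by omega) Q hQ
        convert this
      row_ge := fun a _ => label_ge a
      col_ge := fun b _ => label_ge b
      a0 := ⟨Fintype.card I, by omega⟩
      ha0 := by simp only; omega
      pa0 := label_copy le_rfl
      b0 := ⟨Fintype.card J, by omega⟩
      hb0 := by simp only; omega
      pb0 := label_copy le_rfl
      r_pos := hpos.1
      c_pos := hpos.2.1 }
  have hall := L.all_of (T + 1) hT'
  -- at time `T` the site `(a0, b0)` is not occupied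
  have hnot : ¬ (D.box A N).occ T L.a0 L.b0 := by
    rw [(hall T (Nat.le_succ T)).1 L.a0 L.b0 L.ha0 L.hb0, L.pa0, L.pb0]
    exact hT' T (Nat.lt_succ_self T)
  -- copies
  have hcopy : ∀ a b : Fin N, Fintype.card I ≤ a → (a : ℕ) < n1 → Fintype.card J ≤ b →
      (b : ℕ) < n2 → (D.box A N).occ (T + 1) a b := by
    intro a b ha1 ha2 hb1 hb2
    rw [(hall (T + 1) le_rfl).1 a b ha2 hb2]
    change gocc D.rc D.cc r c (T + 1) (label r i0 a) (label c j0 b)
    rw [label_copy ha1, label_copy hb1]
    exact hT
  have hcopies : ∀ m, Fintype.card I + D.M + 1 ≤ N → Fintype.card J + D.M + 1 ≤ N →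
      (m = Fintype.card I ∨ m = Fintype.card J) →
      D.M < #{b : Fin N | m ≤ b ∧ (b : ℕ) < m + D.M + 1} := by
    intro m hm1 hm2 hm
    have hfc := fin_card N (fun b => m ≤ b ∧ b < m + D.M + 1)
    have hfc' : #{b : Fin N | m ≤ b ∧ (b : ℕ) < m + D.M + 1} =
        #((range N).filter fun b => m ≤ b ∧ b < m + D.M + 1) := by
      convert hfc
    rw [hfc']
    have : Ico m (m + D.M + 1) ⊆ (range N).filter fun b => m ≤ b ∧ b < m + D.M + 1 := by
      intro v hv
      rw [mem_Ico] at hv
      rw [mem_filter, mem_range]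
      omega
    refine lt_of_lt_of_le ?_ (card_le_card this)
    rw [Nat.card_Ico]
    omega
  have hfullrow : ∀ a : Fin N, Fintype.card I ≤ a → (a : ℕ) < n1 → ∀ b,
      (D.box A N).occ (T + 2) a b := by
    intro a ha1 ha2 b
    rw [Sys.occ_succ']
    right
    have h1 : D.M ≤ (D.box A N).X a (T + 1) := by
      refine le_trans (hcopies _ (by omega) (by omega) (Or.inr rfl)).le (card_le_card ?_)
      intro b hb
      rw [mem_filter] at hb ⊢
      exact ⟨mem_univ _, hcopy a b ha1 ha2 hb.2.1 hb.2.2⟩
    have h2 : (D.box A N).kap a (T + 1) = 0 := D.rc_M _ h1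
    rw [h2]
    exact ((D.box A N).ell_mem b _).1
  have hfull : ∀ a b, (D.box A N).occ (T + 3) a b := by
    intro a b
    rw [Sys.occ_succ']
    right
    have h1 : D.M ≤ (D.box A N).Y b (T + 2) := by
      refine le_trans (hcopies _ (by omega) (by omega) (Or.inl rfl)).le (card_le_card ?_)
      intro a ha
      rw [mem_filter] at ha ⊢
      exact ⟨mem_univ _, hfullrow a ha.2.1 ha.2.2 b⟩
    have h2 : (D.box A N).ell b (T + 2) = D.p := D.cc_M _ h1
    rw [h2]
    exact ((D.box A N).kap_mem a _).2
  have hex : ∃ t, evol Z A t = Set.univ := ⟨T + 3, (D.evol_eq_univ hAn _).2 hfull⟩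
  refine ⟨Nat.find hex, ⟨A, ⟨hfin, ?_⟩, ClassData.spans_of_full (Nat.find_spec hex),
    ⟨Nat.find_spec hex, fun t ht => Nat.find_min' hex ht⟩⟩, ?_⟩
  · -- thin
    intro x hx
    have huniq : ∀ {s : Set (ℕ × ℕ)}, (∀ y ∈ s, ∀ z ∈ s, y = z) → s.encard ≤ (1 : ℕ) := by
      intro s hs
      rw [Nat.cast_one, Set.encard_le_one_iff]
      exact fun a b ha hb => hs a ha b hb
    rcases hx with h | h
    · right
      refine huniq ?_
      rintro y ⟨hy, hy'⟩ z ⟨hz, hz'⟩
      rcases hy with hy | hy
      · rcases hz with hz | hz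
        · have h1 := hfB y.2
          have h2 := hfB z.2
          have := block_unique (B := B) (u := y.2) (u' := z.2) (w := x.1 - n2) (by omega) (by omega)
            (by omega) (by omega)
          exact Prod.ext (hy'.trans hz'.symm) this
        · omega
      · omega
    · left
      refine huniq ?_
      rintro y ⟨hy, hy'⟩ z ⟨hz, hz'⟩
      rcases hy with hy | hy
      · omega
      · rcases hz with hz | hz
        · omega
        · have h1 := hgB y.1
          have h2 := hgB z.1
          have := block_unique (B := B) (u := y.1) (u' := z.1) (w := x.2 - n1) (by omega) (by omega)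
            (by omega) (by omega)
          exact Prod.ext this (hy'.trans hz'.symm)
  · rw [Nat.le_find_iff]
    intro t ht hcon
    have h1 := (D.evol_eq_univ hAn t).1 hcon L.a0 L.b0
    exact hnot ((D.box A N).occ_mono (by omega) h1)

end Pool.Agent.helper55.NG
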