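import Mathlib
import Pool.Agent.helper55.NG.Sys

set_option autoImplicit false

/-!
# The fast lemma

If a column jumps over many tight classes at once, then afterwards every row passes these classes
in boundedly many steps.
-/

namespace Pool.Agent.helper55.NG

open Finset Classical

/-- The arithmetic behind the fast lemma. -/
theorem fast_arith {L k B s : ℕ} {g N β : ℕ → ℕ} (hk : 1 ≤ k)
    (h1 : ∀ m, m + 1 < L → g m < g (m + 1)) (h2 : ∀ m, m + 1 < L → β m < g (m + 1))
    (h3 : ∀ m < L, g m ≤ B + s + k) (h4 : ∀ m < L, N m * (g m - k - B) ≤ k * s)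
    (h5 : ∀ m < L, k ≤ m + 1 → B + s ≤ β m + N m) (h6 : ∀ m < L, B ≤ β m) : L ≤ 8 * k + 3 := by
  by_contra hL
  push Not at hL
  have hinc : ∀ m r, m + r < L → g m + r ≤ g (m + r) := by
    intro m r
    induction r with
    | zero => intro _; simp
    | succ r ih =>
      intro hr
      have h := h1 (m + r) (by omega)
      have h' := ih (by omega)
      rw [← Nat.add_assoc m r 1]
      omega
  have hg : ∀ m, 1 ≤ m → m < L → B + m ≤ g m := by
    intro m hm hmL
    have a1 := h2 0 (by omega)
    have a2 := h6 0 (by omega)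
    have a3 := hinc 1 (m - 1) (by omega)
    have a4 : 1 + (m - 1) = m := by omega
    rw [a4] at a3
    simp only [Nat.zero_add] at a1
    omega
  rcases lt_or_ge s (4 * k) with hs | hs
  · have a1 := h3 (8 * k + 3) (by omega)
    have a2 := hg (8 * k + 3) (by omega) (by omega)
    omega
  · have a1 := hg (3 * k) (by omega) (by omega)
    have a2 := h4 (3 * k) (by omega)
    have a3 : 2 * N (3 * k) ≤ s := by
      have b1 : N (3 * k) * (2 * k) ≤ N (3 * k) * (g (3 * k) - k - B) :=
        Nat.mul_le_mul_left _ (by omega)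
      have b2 : k * (2 * N (3 * k)) ≤ k * s := by
        calc k * (2 * N (3 * k)) = N (3 * k) * (2 * k) := by ring
          _ ≤ _ := b1.trans a2
      exact Nat.le_of_mul_le_mul_left b2 (by omega)
    have a4 := h5 (3 * k) (by omega) (by omega)
    have a5 := h2 (3 * k) (by omega)
    have a6 := h4 (3 * k + 1) (by omega)
    set x := g (3 * k + 1) - k - B with hx
    have a7 : s ≤ 4 * x := by omega
    have a8 : 0 < x := by omega
    have a9 : N (3 * k + 1) ≤ 4 * k := by
      have b1 : k * s ≤ k * (4 * x) := Nat.mul_le_mul_left _ a7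
      have b2 : N (3 * k + 1) * x ≤ (4 * k) * x := by
        calc N (3 * k + 1) * x ≤ k * (4 * x) := a6.trans b1
          _ = _ := by ring
      exact Nat.le_of_mul_le_mul_right b2 a8
    have a10 := h5 (3 * k + 1) (by omega) (by omega)
    have a11 := h2 (3 * k + 1) (by omega)
    have a12 := hinc (3 * k + 2) (5 * k) (by omega)
    have a13 := h3 (3 * k + 2 + 5 * k) (by omega)
    have a14 : 3 * k + 1 + 1 = 3 * k + 2 := by omega
    rw [a14] at a11
    omega

namespace Sys

variable {I J : Type} [Fintype I] [Fintype J] (S : Sys I J)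

theorem card_lt_of_Y_lt (t : ℕ) : ∀ (y j : J), S.Y j t < S.Y y t →
    #{i | S.A i j ∧ ∀ s < t, S.ell j s < S.kap i s} < #{i | S.A i y} := by
  induction t with
  | zero =>
    intro y j h
    rw [Y_zero, Y_zero] at h
    simpa using h
  | succ t ih =>
    intro y j h
    rcases le_or_gt (S.ell y t) (S.ell j t) with hle | hlt
    · rw [Y_succ, Y_succ] at h
      have h1 : #{i | S.A i y ∨ S.kap i t ≤ S.ell y t} ≤
          #{i | S.A i y} + #{i | S.kap i t ≤ S.ell j t} := by
        rw [filter_or]
        refine (card_union_le _ _).trans (Nat.add_le_add_left (card_le_card ?_) _)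
        exact monotone_filter_right _ fun _ _ ho => ho.trans hle
      have h2 : #{i | S.A i j ∨ S.kap i t ≤ S.ell j t} =
          #{i | S.A i j ∧ ¬ S.kap i t ≤ S.ell j t} + #{i | S.kap i t ≤ S.ell j t} := by
        rw [← card_union_of_disjoint]
        · congr 1
          ext i
          simp only [mem_filter, mem_univ, true_and, mem_union]
          tauto
        · rw [disjoint_filter]
          tauto
      have h3 : #{i | S.A i j ∧ ∀ s < t + 1, S.ell j s < S.kap i s} ≤
          #{i | S.A i j ∧ ¬ S.kap i t ≤ S.ell j t} := by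
        refine card_le_card (monotone_filter_right _ fun i _ ho => ?_)
        exact ⟨ho.1, not_le.2 (ho.2 t (Nat.lt_succ_self t))⟩
      omega
    · have hY : S.Y j t < S.Y y t := by
        by_contra hcon
        exact absurd (S.cc_mono (not_lt.1 hcon)) (not_le.2 hlt)
      refine lt_of_le_of_lt (card_le_card (monotone_filter_right _ fun i _ ho => ?_)) (ih y j hY)
      exact ⟨ho.1, fun s hs => ho.2 s (hs.trans (Nat.lt_succ_self t))⟩

/-- A column `y` which was ahead of column `j` and gets less, has many initial sites in the rows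
which have been captured by `j`. -/
theorem straggler {t : ℕ} {j y : J} (h : S.ell j t < S.ell y t) :
    S.Y j (t + 1) + 1 ≤ #{i | S.A i y ∧ S.kap i t ≤ S.ell j t} + S.Y y (t + 1) := by
  have hY : S.Y j t < S.Y y t := by
    by_contra hcon
    exact absurd (S.cc_mono (not_lt.1 hcon)) (not_le.2 h)
  have h0 := S.card_lt_of_Y_lt t y j hY
  have h1 : S.Y j (t + 1) =
      #{i | S.A i j ∧ ¬ S.kap i t ≤ S.ell j t} + #{i | S.kap i t ≤ S.ell j t} := by
    rw [Y_succ, ← card_union_of_disjoint]
    · congr 1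
      ext i
      simp only [mem_filter, mem_univ, true_and, mem_union]
      tauto
    · rw [disjoint_filter]
      tauto
  have h2 : #{i | S.A i j ∧ ¬ S.kap i t ≤ S.ell j t} ≤
      #{i | S.A i j ∧ ∀ s < t, S.ell j s < S.kap i s} := by
    refine card_le_card (monotone_filter_right _ fun i _ ho => ⟨ho.1, fun s hs => ?_⟩)
    by_contra hcon
    exact ho.2 (((S.kap_anti i hs.le).trans (not_lt.1 hcon)).trans (S.ell_mono j hs.le))
  have h3 : #{i | S.A i y ∧ ¬ S.kap i t ≤ S.ell j t} + #{i | S.kap i t ≤ S.ell j t} ≤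
      S.Y y (t + 1) := by
    rw [Y_succ, ← card_union_of_disjoint]
    · refine card_le_card fun i hi => ?_
      simp only [mem_filter, mem_univ, true_and, mem_union] at hi ⊢
      rcases hi with hi | hi
      · exact Or.inl hi.1
      · exact Or.inr (hi.trans h.le)
    · rw [disjoint_filter]
      tauto
  have h4 : #{i | S.A i y} =
      #{i | S.A i y ∧ S.kap i t ≤ S.ell j t} + #{i | S.A i y ∧ ¬ S.kap i t ≤ S.ell j t} := by
    rw [← card_union_of_disjoint]
    · congr 1
      ext i
      simp only [mem_filter, mem_univ, true_and, mem_union]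
      tauto
    · rw [disjoint_filter]
      tauto
  omega

variable {S}

/-- The set is `k`-thin. -/
def Thin (S : Sys I J) (k : ℕ) : Prop :=
  ∀ i j, S.A i j → #{j' | S.A i j'} ≤ k ∨ #{i' | S.A i' j} ≤ k

theorem Thin.dual {k : ℕ} (h : S.Thin k) : S.dual.Thin k := fun j i hA => (h i j hA).symm

/-- Light rows: each of them was captured many times. -/
theorem light_count {k t : ℕ} {c l l' : ℤ} (hl : S.lo ≤ l) (hlc : l < c) (hcl : c ≤ l')
    (hl' : l' ≤ S.hi) :
    #{i | #{j | S.A i j} ≤ k ∧ S.kap i t ≤ l} * (S.w c - k - S.beta l' (t + 1)) ≤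
      #{y | c ≤ S.ell y t ∧ S.ell y (t + 1) < l'} * (S.h l' - 1 - S.h c) := by
  refine card_mul_le_card_mul (fun i y => ¬ S.A i y ∧ ∃ v < t, c ≤ S.kap i v ∧
    S.kap i v ≤ S.ell y v) ?_ ?_
  · intro i hi
    rw [mem_filter] at hi
    obtain ⟨-, hik, hil⟩ := hi
    rcases le_or_gt (S.w c) k with hwk | hwk
    · have : S.w c - k - S.beta l' (t + 1) = 0 := by omega
      rw [this]; exact Nat.zero_le _
    have h0 : c ≤ S.kap i 0 := by
      unfold kap
      rw [← S.lt_w (by omega), X_zero]
      omega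
    have hex : ∃ v, S.kap i (v + 1) < c := by
      rcases Nat.eq_zero_or_pos t with rfl | ht
      · omega
      · exact ⟨t - 1, by rw [Nat.sub_add_cancel ht]; omega⟩
    set v := Nat.find hex with hv
    have hv1 : S.kap i (v + 1) < c := Nat.find_spec hex
    have hv0 : c ≤ S.kap i v := by
      rcases Nat.eq_zero_or_pos v with h | h
      · rw [h]; exact h0
      · have := Nat.find_min hex (m := v - 1) (by omega)
        rw [Nat.sub_add_cancel h] at this
        omega
    have hvt : v < t := by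
      by_contra hcon
      have := S.kap_anti i (not_lt.1 hcon)
      omega
    have hX : S.w c ≤ S.X i (v + 1) := (S.w_le (by omega)).2 hv1
    rw [X_succ] at hX
    have h1 : #{y | S.A i y ∨ S.kap i v ≤ S.ell y v} ≤
        #{y | S.A i y} + #{y | ¬ S.A i y ∧ S.kap i v ≤ S.ell y v} := by
      refine (card_le_card ?_).trans (card_union_le _ _)
      intro y hy
      simp only [mem_filter, mem_univ, true_and, mem_union] at hy ⊢
      tauto
    have h2 : #{y | ¬ S.A i y ∧ S.kap i v ≤ S.ell y v} ≤
        S.beta l' (t + 1) + #(bipartiteAbove (fun i y => ¬ S.A i y ∧ ∃ v < t, c ≤ S.kap i v ∧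
          S.kap i v ≤ S.ell y v) {y | c ≤ S.ell y t ∧ S.ell y (t + 1) < l'} i) := by
      unfold beta
      refine (card_le_card ?_).trans (card_union_le _ _)
      intro y hy
      rw [mem_filter] at hy
      rw [mem_union, mem_bipartiteAbove, mem_filter, mem_filter]
      by_cases hy2 : l' ≤ S.ell y (t + 1)
      · exact Or.inl ⟨mem_univ _, hy2⟩
      · refine Or.inr ⟨⟨mem_univ _, ?_, not_le.1 hy2⟩, hy.2.1, v, hvt, hv0, hy.2.2⟩
        exact (hv0.trans hy.2.2).trans (S.ell_mono y hvt.le)
    omega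
  · intro y hy
    rw [mem_filter] at hy
    obtain ⟨-, hy1, hy2⟩ := hy
    have hex : ∃ τ, c ≤ S.ell y τ := ⟨t, hy1⟩
    set τ := Nat.find hex with hτ
    have hτ1 : c ≤ S.ell y τ := Nat.find_spec hex
    have hτt : τ ≤ t := Nat.find_min' hex hy1
    have hYτ : S.h c ≤ S.Y y τ := (S.h_le (by omega)).2 hτ1
    have hYt : S.Y y (t + 1) < S.h l' := (S.lt_h hl').2 hy2
    have hdisj : Disjoint
        (bipartiteBelow (fun i y => ¬ S.A i y ∧ ∃ v < t, c ≤ S.kap i v ∧ S.kap i v ≤ S.ell y v)
          {i | #{j | S.A i j} ≤ k ∧ S.kap i t ≤ l} y)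
        (univ.filter fun i => S.occ τ i y) := by
      rw [disjoint_left]
      intro i hi hi'
      rw [mem_bipartiteBelow] at hi
      obtain ⟨-, hA, v, -, hv1, hv2⟩ := hi
      rw [mem_filter] at hi'
      have ho := hi'.2
      have hτv : τ ≤ v := Nat.find_min' hex (hv1.trans hv2)
      rcases Nat.eq_zero_or_pos τ with h | h
      · rw [h] at ho
        exact hA ho
      · have h3 : τ = (τ - 1) + 1 := by omega
        rw [h3, occ_succ] at ho
        rcases ho with ho | ho
        · exact hA ho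
        · have h4 := Nat.find_min hex (m := τ - 1) (by omega)
          have h5 := S.kap_anti i (show τ - 1 ≤ v by omega)
          omega
    have hsub : (bipartiteBelow (fun i y => ¬ S.A i y ∧ ∃ v < t, c ≤ S.kap i v ∧
        S.kap i v ≤ S.ell y v) {i | #{j | S.A i j} ≤ k ∧ S.kap i t ≤ l} y) ∪
        (univ.filter fun i => S.occ τ i y) ⊆ (univ.filter fun i => S.occ (t + 1) i y) := by
      intro i hi
      rw [mem_union, mem_bipartiteBelow] at hi
      rw [mem_filter]
      refine ⟨mem_univ _, ?_⟩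
      rcases hi with ⟨-, hA, v, hv, hv1, hv2⟩ | ho
      · exact S.occ_mono (show v + 1 ≤ t + 1 by omega) (S.occ_succ.2 (Or.inr hv2))
      · rw [mem_filter] at ho
        exact S.occ_mono (by omega) ho.2
    have h1 := card_le_card hsub
    rw [card_union_of_disjoint hdisj] at h1
    have h2 : #{i | S.occ τ i y} = S.Y y τ := rfl
    have h3 : #{i | S.occ (t + 1) i y} = S.Y y (t + 1) := rfl
    omega

/-- The number of heavy stragglers. -/
theorem heavy_count {k t : ℕ} (hS : S.Thin k) {j : J} {b c : ℤ} (hb : S.ell j t ≤ b)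
    (hcl : c ≤ S.ell j (t + 1)) :
    #{y | ¬ #{i | S.A i y} ≤ k ∧ b < S.ell y t ∧ S.ell y (t + 1) < c} *
      (S.h (S.ell j (t + 1)) + 2 - S.h c) ≤
      #{i | #{j | S.A i j} ≤ k ∧ S.kap i t ≤ S.ell j t} * k := by
  refine card_mul_le_card_mul (fun y i => S.A i y) ?_ ?_
  · intro y hy
    rw [mem_filter] at hy
    obtain ⟨-, hy0, hy1, hy2⟩ := hy
    have h1 := S.straggler (t := t) (j := j) (y := y) (by omega)
    have h2 : S.Y y (t + 1) < S.h c := (S.lt_h (hcl.trans (S.ell_mem _ _).2)).2 hy2
    have h3 : S.h (S.ell j (t + 1)) ≤ S.Y j (t + 1) := (S.h_le (S.ell_mem _ _).2).2 le_rfl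
    have h4 : #{i | S.A i y ∧ S.kap i t ≤ S.ell j t} ≤
        #(bipartiteAbove (fun y i => S.A i y)
          {i | #{j | S.A i j} ≤ k ∧ S.kap i t ≤ S.ell j t} y) := by
      refine card_le_card fun i hi => ?_
      rw [mem_filter] at hi
      rw [mem_bipartiteAbove, mem_filter]
      refine ⟨⟨mem_univ _, ?_, hi.2.2⟩, hi.2.1⟩
      rcases hS i y hi.2.1 with h | h
      · exact h
      · exact absurd h hy0
    omega
  · intro i hi
    rw [mem_filter] at hi
    refine le_trans (card_le_card fun y hy => ?_) hi.2.1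
    rw [mem_bipartiteBelow] at hy
    rw [mem_filter]
    exact ⟨mem_univ _, hy.2⟩

/-- The fast lemma. -/
theorem fast_of_jump {k t : ℕ} (hk : 1 ≤ k) (hS : S.Thin k) {j : J} {b : ℤ}
    (hb : S.ell j t ≤ b)
    (ht : ∀ c, b < c → c ≤ S.ell j (t + 1) → S.Tight k c t) :
    Fast S.kap (8 * k + 3) (t + 1) b (S.ell j (t + 1)) := by
  intro i v L hv hL
  have hlo : S.lo ≤ S.ell j t := (S.ell_mem _ _).1
  have hhi : S.ell j (t + 1) ≤ S.hi := (S.ell_mem _ _).2
  set l' := S.ell j (t + 1) with hl'
  set c : ℕ → ℤ := fun m => S.kap i (v + m) with hc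
  set s := #{y | b < S.ell y t ∧ S.ell y (t + 1) < l'} with hs
  set N : ℤ → ℕ := fun c => #{y | ¬ #{i | S.A i y} ≤ k ∧ b < S.ell y t ∧ S.ell y (t + 1) < c}
    with hN
  have hcm : ∀ m < L, b < c m ∧ c m ≤ l' ∧ S.lo < c m := fun m hm =>
    ⟨(hL m hm).2.1, (hL m hm).2.2, by have := (hL m hm).2.1; simp only [hc]; omega⟩
  have hwX : ∀ m < L, S.w (c m) ≤ S.X i (v + m + 1) := fun m hm =>
    (S.w_le (hcm m hm).2.2).2 (hL m hm).1
  have hXw : ∀ m, m + 1 < L → S.X i (v + m + 1) < S.w (c (m + 1)) := fun m hm =>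
    (S.lt_w (hcm _ hm).2.2).2 le_rfl
  have hh : ∀ m < L, S.h (c m) + m ≤ S.h l' := by
    intro m
    induction m with
    | zero =>
      intro hm
      rcases (hcm 0 hm).2.1.eq_or_lt with h | h
      · rw [h]; simp
      · have := S.h_lt_h (hcm 0 hm).2.2.le h hhi
        omega
    | succ m ih =>
      intro hm
      have h1 := ih (by omega)
      have h2 : c (m + 1) < c m := (hL m (by omega)).1
      have h3 := S.h_lt_h (hcm _ hm).2.2.le h2 ((hcm m (by omega)).2.1.trans hhi)
      omega
  refine fast_arith (B := S.beta l' (t + 1)) (s := s) (g := fun m => S.w (c m))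
    (N := fun m => N (c m)) (β := fun m => S.beta (c m) (t + 1)) hk ?_ ?_ ?_ ?_ ?_ ?_
  · intro m hm
    exact lt_of_le_of_lt (hwX m (by omega)) (hXw m hm)
  · intro m hm
    refine lt_of_le_of_lt ?_ (hXw m hm)
    exact (S.beta_mono _ (show t + 1 ≤ v + m by omega)).trans (S.beta_le_X i (v + m))
  · intro m hm
    have h1 := ht (c m) (hcm m hm).1 (hcm m hm).2.1
    have h2 : S.beta (c m) t ≤ S.beta l' (t + 1) + s := by
      refine (card_le_card ?_).trans (card_union_le _ _)
      intro y hy
      rw [mem_filter] at hy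
      rw [mem_union, mem_filter, mem_filter]
      by_cases hy2 : l' ≤ S.ell y (t + 1)
      · exact Or.inl ⟨mem_univ _, hy2⟩
      · exact Or.inr ⟨mem_univ _, lt_of_lt_of_le (hcm m hm).1 hy.2, not_le.1 hy2⟩
    unfold Tight at h1
    omega
  · intro m hm
    have hcl := (hcm m hm).2.1
    have h1 := heavy_count (c := c m) hS hb hcl
    have h2 := light_count (S := S) (k := k) (t := t) (c := c m) (l := S.ell j t) (l' := l') hlo
      (by have := (hcm m hm).1; omega) hcl hhi
    have h3 : #{y | c m ≤ S.ell y t ∧ S.ell y (t + 1) < l'} ≤ s := by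
      refine card_le_card (monotone_filter_right _ fun y _ hy => ?_)
      exact ⟨lt_of_lt_of_le (hcm m hm).1 hy.1, hy.2⟩
    have h4 : S.h (c m) ≤ S.h l' := by have := hh m hm; omega
    rw [← hl'] at h1
    change N (c m) * _ ≤ _ at h1
    set Λ := #{i | #{j | S.A i j} ≤ k ∧ S.kap i t ≤ S.ell j t} with hΛ
    set x := S.w (c m) - k - S.beta l' (t + 1) with hx
    set D := S.h l' + 2 - S.h (c m) with hD
    have hD0 : 0 < D := by omega
    have h5 : (N (c m) * x) * D ≤ (k * s) * D := by
      calc (N (c m) * x) * D = (N (c m) * D) * x := by ring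
        _ ≤ (Λ * k) * x := Nat.mul_le_mul_right _ h1
        _ = k * (Λ * x) := by ring
        _ ≤ k * (#{y | c m ≤ S.ell y t ∧ S.ell y (t + 1) < l'} * (S.h l' - 1 - S.h (c m))) :=
            Nat.mul_le_mul_left _ h2
        _ ≤ k * (s * D) := Nat.mul_le_mul_left _ (Nat.mul_le_mul h3 (by omega))
        _ = (k * s) * D := by ring
    exact Nat.le_of_mul_le_mul_right h5 hD0
  · intro m hm hkm
    have hcl := (hcm m hm).2.1
    have h1 : S.beta l' (t + 1) + s =
        #((univ.filter fun y => l' ≤ S.ell y (t + 1)) ∪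
          (univ.filter fun y => b < S.ell y t ∧ S.ell y (t + 1) < l')) := by
      rw [card_union_of_disjoint]
      · rfl
      · rw [disjoint_filter]
        intro y _ h1 h2
        omega
    rw [h1]
    refine (card_le_card ?_).trans (card_union_le _ _)
    intro y hy
    rw [mem_union, mem_filter, mem_filter] at hy
    rw [mem_union, mem_filter, mem_filter]
    rcases hy with ⟨-, hy⟩ | ⟨-, hy1, hy2⟩
    · exact Or.inl ⟨mem_univ _, hcl.trans hy⟩
    · by_cases hy3 : c m ≤ S.ell y (t + 1)
      · exact Or.inl ⟨mem_univ _, hy3⟩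
      · refine Or.inr ⟨mem_univ _, ?_, hy1, not_le.1 hy3⟩
        intro hlight
        have h2 := S.straggler (t := t) (j := j) (y := y) (by omega)
        have h3 : S.Y y (t + 1) < S.h (c m) := (S.lt_h (hcl.trans hhi)).2 (not_le.1 hy3)
        have h4 : S.h l' ≤ S.Y j (t + 1) := (S.h_le hhi).2 le_rfl
        have h5 : #{i | S.A i y ∧ S.kap i t ≤ S.ell j t} ≤ #{i | S.A i y} :=
          card_le_card (monotone_filter_right _ fun _ _ ho => ho.1)
        have h6 := hh m hm
        omega
  · intro m hm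
    exact S.beta_anti (hcm m hm).2.1 _

/-- The half of the chain data given by a system, at a time at which the classes above `th` are
tight. -/
theorem half {k T0 : ℕ} (hk : 1 ≤ k) (hS : S.Thin k) {th : ℤ} (hth : S.lo ≤ th) (hth' : th ≤ S.hi)
    (ht : ∀ c, th < c → c ≤ S.hi → S.Tight k c T0) {Q : ℕ → ℕ} (hQ : Antitone Q) :
    Half S.kap S.ell th T0 (fun t => S.pot th t + Q t) (8 * k + 3) (S.hi - S.lo).toNat where
  kap_anti i t := S.kap_anti i (Nat.le_succ t)
  ell_mono j t := S.ell_mono j (Nat.le_succ t)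
  P_anti t := Nat.add_le_add (S.pot_anti th (Nat.le_succ t)) (hQ (Nat.le_succ t))
  kap_le i t := by have := (S.kap_mem i t).2; omega
  ell_le j t := by have := (S.ell_mem j t).2; omega
  U1 i t _ h1 h2 h3 := by
    obtain ⟨h4, h5⟩ := S.U1 hth h1 h2 h3
    exact ⟨Nat.add_lt_add_of_lt_of_le h4 (hQ (Nat.le_succ t)), h5⟩
  U2 j t _ h1 _ := by
    rcases S.U2 hth h1 with h | ⟨h3, h4, h5⟩ | h
    · exact Or.inl h
    · exact Or.inr (Or.inl ⟨h3, h4, Nat.add_lt_add_of_lt_of_le h5 (hQ (Nat.le_succ t))⟩)
    · exact Or.inr (Or.inr h)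
  fast j t hT _ := by
    refine fast_of_jump hk hS (le_max_left _ _) fun c hc hc' => ?_
    exact (ht c (lt_of_le_of_lt (le_max_right _ _) hc) (hc'.trans (S.ell_mem _ _).2)).mono hT

/-- After the system has become tight, all changes of classes happen within a linear time. -/
theorem tight_bound {k T0 : ℕ} (hk : 1 ≤ k) (hS : S.Thin k) {th : ℤ} (hth : S.lo ≤ th)
    (hth' : th ≤ S.hi) (ht : ∀ c, th < c → c ≤ S.hi → S.Tight k c T0)
    (ht' : ∀ c, -th < c → c ≤ S.dual.hi → S.dual.Tight k c T0) {t : ℕ}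
    (hev : (∃ i, S.kap i (t + 1) < S.kap i t) ∨ (∃ j, S.ell j t < S.ell j (t + 1))) :
    t + 1 ≤ T0 + (3 * (8 * k + 3) + 1) * ((S.hi - S.lo).toNat * k) +
      (8 * k + 3) * (S.hi - S.lo).toNat + (2 * (8 * k + 3) + 1) := by
  have H := half hk hS hth hth' ht (S.dual.pot_anti (-th))
  have H' := half (S := S.dual) (Q := S.pot th) hk hS.dual (th := -th) (neg_le_neg hth')
    (neg_le_neg hth) ht' (S.pot_anti th)
  have e1 : (fun t => S.dual.pot (-th) t + S.pot th t) =
      (fun t => S.pot th t + S.dual.pot (-th) t) := by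
    funext t; exact Nat.add_comm _ _
  have e2 : S.dual.kap = fun j t => - S.ell j t := by
    funext j t; exact S.dual_kap j t
  have e3 : S.dual.ell = fun i t => - S.kap i t := by
    funext j t; exact S.dual_ell j t
  have e4 : (S.dual.hi - S.dual.lo).toNat = (S.hi - S.lo).toNat := by
    change (-S.lo - -S.hi).toNat = _
    congr 1; ring
  rw [e1, e2, e3, e4] at H'
  have hb := chain_bound (by omega) H H' hev
  have h1 := S.pot_le ht
  have h2 := S.dual.pot_le ht'
  have h3 : S.pot th T0 + S.dual.pot (-th) T0 ≤ (S.hi - S.lo).toNat * k := by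
    refine (Nat.add_le_add h1 h2).trans ?_
    rw [← Nat.add_mul]
    refine Nat.mul_le_mul_right _ ?_
    change (S.hi - th).toNat + (-S.lo - -th).toNat ≤ _
    omega
  have h4 := Nat.mul_le_mul_left (3 * (8 * k + 3) + 1) h3
  omega

end Sys

end Pool.Agent.helper55.NG
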