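import Mathlib
import Pool.Agent.helper55.NG.FastLemma

set_option autoImplicit false

/-!
# Comparison with the pure dynamics

Before a thin system becomes tight, its heavy rows and columns follow the pure dynamics in which
initial sites of a heavy line are never captured.
-/

namespace Pool.Agent.helper55.NG

open Finset Classical

namespace Sys

variable {I J : Type} [Fintype I] [Fintype J] (S : Sys I J) (k : ℕ)

/-- The row `i` is heavy. -/
def hR (i : I) : Prop := k < #{j | S.A i j}

/-- The column `j` is heavy. -/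
def hC (j : J) : Prop := k < #{i | S.A i j}

/-- The pure dynamics of the heavy lines. -/
noncomputable def pocc : ℕ → I → J → Prop
  | 0 => fun _ _ => False
  | t + 1 => fun i j => pocc t i j ∨ (S.hR k i ∧ S.hC k j ∧
      S.rc (#{j' | S.A i j'} + #{j' | pocc t i j'}) ≤ S.cc (#{i' | S.A i' j} + #{i' | pocc t i' j}))

/-- pure row count -/
noncomputable def pX (i : I) (t : ℕ) : ℕ := #{j | S.A i j} + #{j | S.pocc k t i j}

/-- pure column count -/
noncomputable def pY (j : J) (t : ℕ) : ℕ := #{i | S.A i j} + #{i | S.pocc k t i j}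

theorem pocc_succ' {t : ℕ} {i : I} {j : J} : S.pocc k (t + 1) i j ↔
    S.pocc k t i j ∨ (S.hR k i ∧ S.hC k j ∧ S.rc (S.pX k i t) ≤ S.cc (S.pY k j t)) := Iff.rfl

theorem pocc_mono {t t' : ℕ} (h : t ≤ t') {i : I} {j : J} (ho : S.pocc k t i j) :
    S.pocc k t' i j := by
  induction t', h using Nat.le_induction with
  | base => exact ho
  | succ n _ ih => exact Or.inl ih

theorem pX_mono (i : I) : Monotone (S.pX k i) := fun _ _ h =>
  Nat.add_le_add_left (card_le_card (monotone_filter_right _ fun _ _ ho => S.pocc_mono k h ho)) _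

theorem pY_mono (j : J) : Monotone (S.pY k j) := fun _ _ h =>
  Nat.add_le_add_left (card_le_card (monotone_filter_right _ fun _ _ ho => S.pocc_mono k h ho)) _

theorem pocc_succ {t : ℕ} {i : I} {j : J} : S.pocc k (t + 1) i j ↔
    S.hR k i ∧ S.hC k j ∧ S.rc (S.pX k i t) ≤ S.cc (S.pY k j t) := by
  induction t with
  | zero => rw [pocc_succ']; simp [pocc]
  | succ t ih =>
    rw [pocc_succ']
    constructor
    · rintro (h | h)
      · rw [ih] at h
        exact ⟨h.1, h.2.1, ((S.rc_anti (S.pX_mono k i (Nat.le_succ t))).trans h.2.2).trans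
          (S.cc_mono (S.pY_mono k j (Nat.le_succ t)))⟩
      · exact h
    · exact fun h => Or.inr h

theorem dual_pocc (t : ℕ) (i : I) (j : J) : S.dual.pocc k t j i ↔ S.pocc k t i j := by
  induction t generalizing i j with
  | zero => exact Iff.rfl
  | succ t ih =>
    rw [pocc_succ', pocc_succ', ih]
    have h1 : S.dual.pX k j t = S.pY k j t := by
      unfold pX pY
      simp only [ih]
      rfl
    have h2 : S.dual.pY k i t = S.pX k i t := by
      unfold pX pY
      simp only [ih]
      rfl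
    rw [h1, h2]
    have h3 : S.dual.rc (S.pY k j t) ≤ S.dual.cc (S.pX k i t) ↔
        S.rc (S.pX k i t) ≤ S.cc (S.pY k j t) := neg_le_neg_iff
    rw [h3]
    have h4 : S.dual.hR k j ↔ S.hC k j := Iff.rfl
    have h5 : S.dual.hC k i ↔ S.hR k i := Iff.rfl
    rw [h4, h5]
    tauto

theorem dual_pX (j : J) (t : ℕ) : S.dual.pX k j t = S.pY k j t := by
  unfold pX pY
  simp only [dual_pocc]
  rfl

theorem dual_pY (i : I) (t : ℕ) : S.dual.pY k i t = S.pX k i t := by
  unfold pX pY
  simp only [dual_pocc]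
  rfl

/-- Light rows have class at least `K` and light columns have class at most `L` at time `t`. -/
def Sep (K L : ℤ) (t : ℕ) : Prop :=
  (∀ x, ¬ S.hR k x → K ≤ S.kap x t) ∧ (∀ y, ¬ S.hC k y → S.ell y t ≤ L)

/-- Row form of the comparison. -/
def FR (t : ℕ) : Prop := ∀ i, S.hR k i → S.X i t = S.pX k i t ∨
  ∃ y, ¬ S.hC k y ∧ S.kap i t ≤ S.ell y t ∧ S.rc (S.pX k i t) ≤ S.ell y t

/-- Column form of the comparison. -/
def FC (t : ℕ) : Prop := ∀ j, S.hC k j → S.Y j t = S.pY k j t ∨
  ∃ x, ¬ S.hR k x ∧ S.kap x t ≤ S.ell j t ∧ S.kap x t ≤ S.cc (S.pY k j t)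

variable {S k}

theorem dual_FR {t : ℕ} : S.dual.FR k t ↔ S.FC k t := by
  unfold FR FC
  refine forall_congr' fun j => ?_
  have h4 : S.dual.hR k j ↔ S.hC k j := Iff.rfl
  rw [h4, dual_X, dual_pX]
  refine imp_congr_right fun _ => or_congr_right (exists_congr fun x => ?_)
  have h5 : S.dual.hC k x ↔ S.hR k x := Iff.rfl
  rw [h5, dual_kap, dual_ell, neg_le_neg_iff]
  have h6 : S.dual.rc (S.pY k j t) ≤ - S.kap x t ↔ S.kap x t ≤ S.cc (S.pY k j t) :=
    neg_le_neg_iff
  rw [h6]

theorem dual_FC {t : ℕ} : S.dual.FC k t ↔ S.FR k t := by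
  rw [← dual_FR, dual_dual]

/-- Light rows stay above a class which is not tight. -/
theorem light_row {K : ℤ} (hK : S.lo < K) {T : ℕ} (hT : ¬ S.Tight k K T) {x : I}
    (hx : ¬ S.hR k x) : ∀ t ≤ T + 1, K ≤ S.kap x t := by
  have hx' : #{j | S.A x j} ≤ k := not_lt.1 hx
  unfold Tight at hT
  push Not at hT
  intro t
  induction t with
  | zero =>
    intro _
    unfold kap
    rw [← S.lt_w hK, X_zero]
    omega
  | succ t ih =>
    intro ht
    have h1 := ih (by omega)
    unfold kap
    rw [← S.lt_w hK]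
    have h2 := S.X_le_beta x t
    have h3 := S.beta_anti h1 t
    have h4 := S.beta_mono K (show t ≤ T by omega)
    omega

theorem sep_of_not_tight {K L : ℤ} (hK : S.lo < K) (hL : L < S.hi) {T : ℕ}
    (hT : ¬ S.Tight k K T) (hT' : ¬ S.dual.Tight k (-L) T) : ∀ t ≤ T + 1, S.Sep k K L t := by
  intro t ht
  refine ⟨fun x hx => light_row hK hT hx t ht, fun y hy => ?_⟩
  have h1 := light_row (S := S.dual) (k := k) (K := -L) (neg_lt_neg hL) hT' (x := y) hy t ht
  rw [dual_kap] at h1
  omega

/-- Heavy rows are ahead of light rows. -/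
theorem dom {K L : ℤ} (hKL : L < K) (hS : S.Thin k) {T : ℕ} (hsep : ∀ t ≤ T, S.Sep k K L t)
    {i x : I} (hi : S.hR k i) (hx : ¬ S.hR k x) : ∀ t ≤ T, S.kap i t ≤ S.kap x t := by
  intro t
  induction t with
  | zero =>
    intro _
    refine S.rc_anti ?_
    rw [X_zero, X_zero]
    unfold hR at hi hx
    omega
  | succ t ih =>
    intro ht
    have h1 := ih (by omega)
    have hs := hsep t (by omega)
    have hs' := hsep (t + 1) ht
    by_cases hA : ∃ y, ¬ S.hC k y ∧ S.kap i t ≤ S.ell y t
    · obtain ⟨y, hy, hy'⟩ := hA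
      have h2 := S.kap_anti i (Nat.le_succ t)
      have h3 := hs.2 y hy
      have h4 := hs'.1 x hx
      simp only [Nat.succ_eq_add_one] at h2
      omega
    · push Not at hA
      refine S.rc_anti ?_
      have h2 : #{j | S.A i j} + #{j | S.hC k j ∧ S.kap i t ≤ S.ell j t} ≤ S.X i (t + 1) := by
        rw [X_succ, ← card_union_of_disjoint]
        · refine card_le_card fun j hj => ?_
          simp only [mem_filter, mem_univ, true_and, mem_union] at hj ⊢
          tauto
        · rw [disjoint_filter]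
          intro j _ hj hj'
          rcases hS i j hj with h | h
          · exact absurd hi (not_lt.2 h)
          · exact absurd hj'.1 (not_lt.2 h)
      have h3 : S.X x (t + 1) ≤ #{j | S.A x j} +
          #{j | S.hC k j ∧ S.kap i t ≤ S.ell j t} := by
        rw [X_succ]
        refine (card_le_card ?_).trans (card_union_le _ _)
        intro j hj
        simp only [mem_filter, mem_univ, true_and, mem_union] at hj ⊢
        rcases hj with hj | hj
        · exact Or.inl hj
        · refine Or.inr ⟨?_, h1.trans hj⟩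
          by_contra hl
          have h4 := hs.2 j hl
          have h5 := hs.1 x hx
          omega
      unfold hR at hi hx
      omega

theorem FR_zero : S.FR k 0 := by
  intro i _
  left
  rw [X_zero]
  unfold pX
  simp [pocc]

theorem FR_step {K L : ℤ} (hKL : L < K) (hS : S.Thin k) {T t : ℕ} (ht : t < T)
    (hsep : ∀ t ≤ T, S.Sep k K L t) (h1 : S.FR k t) (h2 : S.FC k t) : S.FR k (t + 1) := by
  intro i hi
  have hs := hsep t ht.le
  by_cases hA : ∃ y, ¬ S.hC k y ∧ S.kap i t ≤ S.ell y t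
  · right
    obtain ⟨y, hy, hy'⟩ := hA
    obtain ⟨z, hz, hz1, hz2⟩ : ∃ y, ¬ S.hC k y ∧ S.kap i t ≤ S.ell y t ∧
        S.rc (S.pX k i t) ≤ S.ell y t := by
      rcases h1 i hi with h | h
      · exact ⟨y, hy, hy', by rw [← h]; exact hy'⟩
      · exact h
    refine ⟨z, hz, ?_, ?_⟩
    · exact ((S.kap_anti i (Nat.le_succ t)).trans hz1).trans (S.ell_mono z (Nat.le_succ t))
    · exact ((S.rc_anti (S.pX_mono k i (Nat.le_succ t))).trans hz2).trans
        (S.ell_mono z (Nat.le_succ t))
  · left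
    push Not at hA
    have hX : S.X i t = S.pX k i t := by
      rcases h1 i hi with h | ⟨y, hy, hy', _⟩
      · exact h
      · exact absurd hy' (not_le.2 (hA y hy))
    have e1 : S.X i (t + 1) = #{j | S.A i j} + #{j | S.hC k j ∧ S.kap i t ≤ S.ell j t} := by
      rw [X_succ, ← card_union_of_disjoint]
      · congr 1
        ext j
        simp only [mem_filter, mem_univ, true_and, mem_union]
        constructor
        · rintro (h | h)
          · exact Or.inl h
          · refine Or.inr ⟨?_, h⟩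
            by_contra hl
            exact absurd h (not_le.2 (hA j hl))
        · tauto
      · rw [disjoint_filter]
        intro j _ hj hj'
        rcases hS i j hj with h | h
        · exact absurd hi (not_lt.2 h)
        · exact absurd hj'.1 (not_lt.2 h)
    rw [e1]
    unfold pX
    congr 2
    ext j
    simp only [mem_filter, mem_univ, true_and, pocc_succ]
    constructor
    · rintro ⟨hj, hj'⟩
      refine ⟨hi, hj, ?_⟩
      rw [← hX]
      rcases h2 j hj with h | ⟨x, hx, hx1, hx2⟩
      · rw [← h]; exact hj'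
      · exact (dom hKL hS hsep hi hx t ht.le).trans hx2
    · rintro ⟨_, hj, hj'⟩
      refine ⟨hj, ?_⟩
      rw [← hX] at hj'
      rcases h2 j hj with h | ⟨x, hx, hx1, hx2⟩
      · rw [← h] at hj'; exact hj'
      · exact (dom hKL hS hsep hi hx t ht.le).trans hx1

theorem Sep.dual {K L : ℤ} {t : ℕ} (h : S.Sep k K L t) : S.dual.Sep k (-L) (-K) t :=
  ⟨fun y hy => by rw [dual_kap]; exact neg_le_neg (h.2 y hy),
    fun x hx => by rw [dual_ell]; exact neg_le_neg (h.1 x hx)⟩

theorem FR_FC {K L : ℤ} (hKL : L < K) (hS : S.Thin k) {T : ℕ} (hsep : ∀ t ≤ T, S.Sep k K L t) :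
    ∀ t ≤ T, S.FR k t ∧ S.FC k t := by
  intro t
  induction t with
  | zero => exact fun _ => ⟨FR_zero, dual_FR.1 FR_zero⟩
  | succ t ih =>
    intro ht
    obtain ⟨h1, h2⟩ := ih (by omega)
    refine ⟨FR_step hKL hS (by omega : t < T) hsep h1 h2, dual_FR.1 ?_⟩
    exact FR_step (S := S.dual) (K := -L) (L := -K) (neg_lt_neg hKL) hS.dual (by omega : t < T)
      (fun s hs => (hsep s hs).dual) (dual_FR.2 h2) (dual_FC.2 h1)

/-- The number of columns of class at least `K` is determined by the pure dynamics. -/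
theorem beta_eq {K L : ℤ} (hKL : L < K) (hS : S.Thin k) {T : ℕ} (hsep : ∀ t ≤ T, S.Sep k K L t)
    {t : ℕ} (ht : t ≤ T) : S.beta K t = #{j | S.hC k j ∧ K ≤ S.cc (S.pY k j t)} := by
  unfold beta
  congr 1
  ext j
  simp only [mem_filter, mem_univ, true_and]
  have hs := hsep t ht
  constructor
  · intro hj
    have hjh : S.hC k j := by
      by_contra hl
      have := hs.2 j hl
      omega
    refine ⟨hjh, ?_⟩
    rcases (FR_FC hKL hS hsep t ht).2 j hjh with h | ⟨x, hx, hx1, hx2⟩
    · rw [← h]; exact hj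
    · exact (hs.1 x hx).trans hx2
  · rintro ⟨hjh, hj⟩
    rcases (FR_FC hKL hS hsep t ht).2 j hjh with h | ⟨x, hx, hx1, hx2⟩
    · rw [← h] at hj; exact hj
    · exact (hs.1 x hx).trans hx1

/-- The system is tight at time `t`. -/
def IsTight (S : Sys I J) (k t : ℕ) : Prop := ∃ th, S.lo ≤ th ∧ th ≤ S.hi ∧
  (∀ c, th < c → c ≤ S.hi → S.Tight k c t) ∧ (∀ c, -th < c → c ≤ S.dual.hi → S.dual.Tight k c t)

theorem exists_not_tight {t : ℕ} (h : ¬ S.IsTight k t) : ∃ K L : ℤ, L < K ∧ S.lo ≤ L ∧ K ≤ S.hi ∧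
    ¬ S.Tight k K t ∧ ¬ S.dual.Tight k (-L) t := by
  by_contra hcon
  push Not at hcon
  apply h
  have hlh : S.lo ≤ S.hi := (S.rc_mem 0).1.trans (S.rc_mem 0).2
  -- the largest class which is not tight
  by_cases hK : ∃ K, S.lo < K ∧ K ≤ S.hi ∧ ¬ S.Tight k K t
  · obtain ⟨K, ⟨hK1, hK2, hK3⟩, hKm⟩ : ∃ K, (S.lo < K ∧ K ≤ S.hi ∧ ¬ S.Tight k K t) ∧
        ∀ c, (S.lo < c ∧ c ≤ S.hi ∧ ¬ S.Tight k c t) → c ≤ K := by
      obtain ⟨K, hK, hKm⟩ := Int.exists_greatest_of_bdd
        (P := fun K => S.lo < K ∧ K ≤ S.hi ∧ ¬ S.Tight k K t) ⟨S.hi, fun z hz => hz.2.1⟩ hK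
      exact ⟨K, hK, hKm⟩
    refine ⟨K, hK1.le, hK2, fun c hc hc' => ?_, fun c hc hc' => ?_⟩
    · by_contra hcT
      have := hKm c ⟨by omega, hc', hcT⟩
      omega
    · by_contra hcT
      have h3 : c ≤ - S.lo := hc'
      have := hcon K (-c) (by omega) (by omega) hK2 hK3
      rw [neg_neg] at this
      exact hcT this
  · push Not at hK
    refine ⟨S.lo, le_rfl, hlh, fun c hc hc' => hK c hc hc', fun c hc hc' => ?_⟩
    have h3 : c ≤ - S.lo := hc'
    omega

/-- If the system becomes tight at time `T + 1`, then the pure dynamics occupies a new site at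
this time. -/
theorem exists_pure (hS : S.Thin k) {T : ℕ} (h1 : ¬ S.IsTight k T) (h2 : S.IsTight k (T + 1)) :
    ∃ i j, S.pocc k (T + 1) i j ∧ ¬ S.pocc k T i j := by
  obtain ⟨K, L, hKL, hL, hK, hnK, hnL⟩ := exists_not_tight h1
  have hsep : ∀ t ≤ T + 1, S.Sep k K L t :=
    sep_of_not_tight (by omega) (by omega) hnK hnL
  by_contra hcon
  push Not at hcon
  have hocc : ∀ i j, S.pocc k (T + 1) i j ↔ S.pocc k T i j :=
    fun i j => ⟨hcon i j, fun h => S.pocc_mono k (Nat.le_succ T) h⟩
  have e1 : S.beta K (T + 1) = S.beta K T := by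
    rw [beta_eq hKL hS hsep le_rfl, beta_eq hKL hS hsep (Nat.le_succ T)]
    unfold pY
    simp only [hocc]
  have e2 : S.dual.beta (-L) (T + 1) = S.dual.beta (-L) T := by
    have hsep' : ∀ t ≤ T + 1, S.dual.Sep k (-L) (-K) t := fun t ht => (hsep t ht).dual
    rw [beta_eq (neg_lt_neg hKL) hS.dual hsep' le_rfl,
      beta_eq (neg_lt_neg hKL) hS.dual hsep' (Nat.le_succ T)]
    unfold pY
    simp only [dual_pocc, hocc]
  obtain ⟨th, hth1, hth2, ht1, ht2⟩ := h2
  have h3 : K ≤ th := by
    by_contra hlt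
    have := ht1 K (not_le.1 hlt) hK
    unfold Tight at this hnK
    rw [e1] at this
    exact hnK this
  have h4 : th ≤ L := by
    by_contra hlt
    have := ht2 (-L) (neg_lt_neg (not_le.1 hlt)) (neg_le_neg hL)
    unfold Tight at this hnL
    rw [e2] at this
    exact hnL this
  omega

end Sys

end Pool.Agent.helper55.NG
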