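import Mathlib
import Pool.Agent.helper55.NG.Compare
import Pool.Agent.helper55.NG.Build

set_option autoImplicit false

/-!
# Comparison of the spanning times of `k`-thin and thin sets
-/

namespace Pool.Agent.helper55.NG

open Finset Classical

variable {Z : Set (ℕ × ℕ)}

/-- The pure dynamics of the heavy lines of a system is a pure dynamics. -/
theorem pocc_iff {I J : Type} [Fintype I] [Fintype J] (S : Sys I J) (k t : ℕ) (i : I) (j : J) :
    S.pocc k t i j ↔ gocc S.rc S.cc (fun i => if S.hR k i then #{j | S.A i j} else 0)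
      (fun j => if S.hC k j then #{i | S.A i j} else 0) t i j := by
  induction t generalizing i j with
  | zero => exact Iff.rfl
  | succ t ih =>
    rw [Sys.pocc_succ', gocc_succ', ih]
    unfold Sys.pX Sys.pY gX gY
    simp only [ih]
    by_cases h1 : S.hR k i
    · by_cases h2 : S.hC k j
      · have h3 : 0 < #{j | S.A i j} := lt_of_le_of_lt (Nat.zero_le _) h1
        have h4 : 0 < #{i | S.A i j} := lt_of_le_of_lt (Nat.zero_le _) h2
        simp only [h1, h2, if_true, h3, h4, true_and]
      · simp [h1, h2]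
    · simp [h1]

/-- The constant in the linear bound after the tight time. -/
def cst (k p : ℕ) : ℕ := (3 * (8 * k + 3) + 1) * (p * k) + (8 * k + 3) * p + (2 * (8 * k + 3) + 1)

/-- The upper bound for the spanning time. -/
theorem upper (D : ClassData Z) {k : ℕ} (hk : 1 ≤ k) {A : Set (ℕ × ℕ)} (hA : KThin k A)
    (hs : Spans Z A) {τ : ℕ} (hτ : IsSpanningTime Z A τ) :
    ∃ T0, (T0 = 0 ∨ ∃ τ' ∈ times 1 Z, T0 ≤ τ') ∧ T0 ≤ 2 * D.M + 1 ∧ τ ≤ T0 + cst k D.p + 1 := by
  obtain ⟨n, hn⟩ : ∃ n, ∀ x ∈ A, x.1 < n ∧ x.2 < n := by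
    refine ⟨hA.1.toFinset.sup (fun x => x.1 + x.2) + 1, fun x hx => ?_⟩
    have := Finset.le_sup (f := fun x : ℕ × ℕ => x.1 + x.2) (hA.1.mem_toFinset.2 hx)
    omega
  set N := n + D.M + 1 with hN
  set S := D.box A N with hS
  -- the system is thin
  have hthin : S.Thin k := by
    intro i j hij
    have hrow : row ((j : ℕ), (i : ℕ)) A = (#{j' | S.A i j'} : ℕ) := by
      unfold row
      have : {y | y ∈ A ∧ y.2 = (i : ℕ)} =
          (((univ.filter fun j' : Fin N => S.A i j').map
            ⟨fun j' : Fin N => ((j' : ℕ), (i : ℕ)), fun a b h => Fin.ext (Prod.mk.inj h).1⟩ :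
              Finset (ℕ × ℕ)) : Set (ℕ × ℕ)) := by
        ext y
        rw [mem_coe, mem_map]
        constructor
        · rintro ⟨hy, hy'⟩
          have h1 := (hn y hy).1
          refine ⟨⟨y.1, by omega⟩, mem_filter.2 ⟨mem_univ _, ?_⟩, ?_⟩
          · change (y.1, (i : ℕ)) ∈ A
            rw [← hy']; exact hy
          · exact Prod.ext rfl hy'.symm
        · rintro ⟨j', hj', rfl⟩
          rw [mem_filter] at hj'
          exact ⟨hj'.2, rfl⟩
      simp only at this ⊢
      rw [this, Set.encard_coe_eq_coe_finsetCard, card_map]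
    have hcol : col ((j : ℕ), (i : ℕ)) A = (#{i' | S.A i' j} : ℕ) := by
      unfold col
      have : {y | y ∈ A ∧ y.1 = (j : ℕ)} =
          (((univ.filter fun i' : Fin N => S.A i' j).map
            ⟨fun i' : Fin N => ((j : ℕ), (i' : ℕ)), fun a b h => Fin.ext (Prod.mk.inj h).2⟩ :
              Finset (ℕ × ℕ)) : Set (ℕ × ℕ)) := by
        ext y
        rw [mem_coe, mem_map]
        constructor
        · rintro ⟨hy, hy'⟩
          have h1 := (hn y hy).2
          refine ⟨⟨y.2, by omega⟩, mem_filter.2 ⟨mem_univ _, ?_⟩, ?_⟩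
          · change ((j : ℕ), y.2) ∈ A
            rw [← hy']; exact hy
          · exact Prod.ext hy'.symm rfl
        · rintro ⟨i', hi', rfl⟩
          rw [mem_filter] at hi'
          exact ⟨hi'.2, rfl⟩
      simp only at this ⊢
      rw [this, Set.encard_coe_eq_coe_finsetCard, card_map]
    rcases hA.2 _ hij with h | h
    · left
      rw [hrow] at h
      exact_mod_cast h
    · right
      rw [hcol] at h
      exact_mod_cast h
  -- full at some time
  obtain ⟨t1, ht1⟩ := D.exists_full hn hs
  rw [D.evol_eq_univ hn] at ht1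
  have htight : ∃ t, S.IsTight k t := by
    refine ⟨t1, 0, le_rfl, Int.natCast_nonneg _, fun c hc hc' => ?_, fun c hc hc' => ?_⟩
    · have h1 : S.beta c t1 = N := by
        unfold Sys.beta
        have : (univ.filter fun j => c ≤ S.ell j t1) = univ := by
          rw [filter_true_of_mem]
          intro j _
          have h2 : S.Y j t1 = N := by
            unfold Sys.Y
            rw [filter_true_of_mem (fun i _ => ht1 i j)]
            simp
          have h3 : S.ell j t1 = D.p := D.cc_M _ (by rw [h2]; omega)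
          rw [h3]; exact hc'
        rw [this]; simp
      have h4 : S.w c ≤ N := by
        rw [S.w_le hc]
        change D.rc N < c
        rw [D.rc_M N (by omega)]
        exact hc
      unfold Sys.Tight
      omega
    · exfalso
      have h3 : c ≤ -(0 : ℤ) := hc'
      omega
  set T0 := Nat.find htight with hT0
  have hT0t : S.IsTight k T0 := Nat.find_spec htight
  -- the tight time
  have hcases : T0 = 0 ∨ ∃ T, T0 = T + 1 ∧ ∃ i j, S.pocc k (T + 1) i j ∧ ¬ S.pocc k T i j := by
    rcases Nat.eq_zero_or_pos T0 with h | h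
    · exact Or.inl h
    · right
      obtain ⟨T, hT⟩ : ∃ T, T0 = T + 1 := ⟨T0 - 1, by omega⟩
      refine ⟨T, hT, Sys.exists_pure hthin (Nat.find_min htight (by omega)) ?_⟩
      rw [← hT]; exact hT0t
  -- the bound after the tight time
  have hafter : ∀ t, T0 + cst k D.p ≤ t → (∀ i, S.kap i (t + 1) = S.kap i t) ∧
      ∀ j, S.ell j (t + 1) = S.ell j t := by
    intro t ht
    obtain ⟨th, hth, hth', h1, h2⟩ := hT0t
    have key := fun hev => Sys.tight_bound hk hthin hth hth' h1 h2 (t := t) hev
    have h3 : (S.hi - S.lo).toNat = D.p := by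
      change ((D.p : ℤ) - 0).toNat = D.p
      omega
    rw [h3] at key
    unfold cst at ht
    constructor
    · intro i
      by_contra hne
      have h4 := S.kap_anti i (Nat.le_succ t)
      have := key (Or.inl ⟨i, lt_of_le_of_ne h4 hne⟩)
      omega
    · intro j
      by_contra hne
      have h4 := S.ell_mono j (Nat.le_succ t)
      have := key (Or.inr ⟨j, lt_of_le_of_ne h4 (Ne.symm hne)⟩)
      omega
  have hconst : ∀ t, T0 + cst k D.p ≤ t → (∀ i, S.kap i t = S.kap i (T0 + cst k D.p)) ∧
      ∀ j, S.ell j t = S.ell j (T0 + cst k D.p) := by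
    intro t ht
    induction t, ht using Nat.le_induction with
    | base => exact ⟨fun _ => rfl, fun _ => rfl⟩
    | succ t ht ih =>
      exact ⟨fun i => ((hafter t ht).1 i).trans (ih.1 i), fun j => ((hafter t ht).2 j).trans (ih.2 j)⟩
  have hfull : ∀ i j, S.occ (T0 + cst k D.p + 1) i j := by
    intro i j
    have h1 : S.occ (max t1 (T0 + cst k D.p) + 1) i j := S.occ_mono (by omega) (ht1 i j)
    rw [Sys.occ_succ] at h1 ⊢
    have h2 := hconst (max t1 (T0 + cst k D.p)) (le_max_right _ _)
    rw [h2.1, h2.2] at h1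
    exact h1
  refine ⟨T0, ?_, ?_, hτ.2 ((D.evol_eq_univ hn _).2 hfull)⟩
  · rcases hcases with h | ⟨T, hT, i, j, hij, hij'⟩
    · exact Or.inl h
    · right
      rw [pocc_iff] at hij hij'
      rw [hT]
      exact exists_thin D _ _ hij fun s hs hcon => hij' (gocc_mono (by omega) hcon)
  · rcases hcases with h | ⟨T, hT, i, j, hij, hij'⟩
    · omega
    · rw [pocc_iff] at hij hij'
      have h1 := gocc_crude (M := D.M) D.rc_anti D.cc_mono
        (fun x y hx => by rw [D.rc_M x hx]; exact (D.cc_mem y).1)
        (fun x y hy => by rw [D.cc_M y hy]; exact (D.rc_mem x).2) hij hij'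
      have h2 := min_le_right (#{i' | (if S.hR k i then #{j | S.A i j} else 0) <
        (if S.hR k i' then #{j | S.A i' j} else 0)}) D.M
      have h3 := min_le_right (#{j' | (if S.hC k j then #{i | S.A i j} else 0) <
        (if S.hC k j' then #{i | S.A i j'} else 0)}) D.M
      omega

/-- There is a thin spanning set. -/
theorem times_nonempty (D : ClassData Z) : ∃ τ ∈ times 1 Z, 1 ≤ τ := by
  refine exists_thin D (I := Unit) (J := Unit) (fun _ => D.M + 1) (fun _ => 1) (T := 1)
    (i0 := ()) (j0 := ()) ?_ ?_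
  · rw [gocc_succ D.rc_anti D.cc_mono]
    refine ⟨Nat.succ_pos _, Nat.one_pos, ?_⟩
    have h1 : D.M ≤ gX D.rc D.cc (fun _ : Unit => D.M + 1) (fun _ : Unit => 1) 0 () := by
      unfold gX
      exact (Nat.le_succ _).trans (Nat.le_add_right _ _)
    rw [D.rc_M _ h1]
    exact (D.cc_mem _).1
  · intro s hs
    have : s = 0 := by omega
    rw [this]
    simp [gocc]

/-- The number of classes is bounded by the spanning time of a thin set. -/
theorem classes_le (D : ClassData Z) : ∃ τ ∈ times 1 Z, D.p ≤ τ + 1 := by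
  -- consecutive classes
  have h0 : D.rc 0 = D.p := by
    obtain ⟨x, hx⟩ := D.rc_surj D.p (Int.natCast_nonneg _) le_rfl
    have h1 := D.rc_anti (Nat.zero_le x)
    have h2 := (D.rc_mem 0).2
    omega
  have h01 : (D.p : ℤ) ≤ D.rc 1 + 1 := by
    rcases Nat.eq_zero_or_pos D.p with h | h
    · have := (D.rc_mem 1).1
      omega
    · obtain ⟨x, hx⟩ := D.rc_surj (D.p - 1) (by omega) (by omega)
      have hx0 : 1 ≤ x := by
        by_contra hcon
        have : x = 0 := by omega
        rw [this, h0] at hx
        omega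
      have := D.rc_anti hx0
      omega
  by_cases h1 : D.rc 1 ≤ 0
  · obtain ⟨τ, hτ, _⟩ := times_nonempty D
    exact ⟨τ, hτ, by omega⟩
  push Not at h1
  set c : Fin D.M → ℕ := fun b => if 0 < D.rc (1 + b) then D.ht (1 + b) else 0 with hc
  have hcpos : ∀ b, 0 < c b ↔ 0 < D.rc (1 + b) := by
    intro b
    simp only [hc]
    split_ifs with h
    · exact ⟨fun _ => h, fun _ => D.ht_pos _ h⟩
    · exact ⟨fun h' => absurd h' (lt_irrefl _), fun h' => absurd h' h⟩
  have hcc : ∀ b : Fin D.M, 0 < D.rc (1 + b) → D.cc (c b) = D.rc (1 + b) := by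
    intro b hb
    simp only [hc, if_pos hb]
    exact D.cc_ht _
  have key : ∀ t (b : Fin D.M), gocc D.rc D.cc (fun _ : Unit => 1) c t () b ↔
      0 < D.rc (1 + b) ∧ D.rc 1 - t < D.rc (1 + b) := by
    intro t
    induction t with
    | zero =>
      intro b
      have h2 := D.rc_anti (Nat.le_add_right 1 (b : ℕ))
      constructor
      · intro h
        exact absurd h (by simp [gocc])
      · rintro ⟨_, h⟩
        simp only [Nat.cast_zero] at h
        omega
    | succ t ih =>
      intro b
      -- the row count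
      have hX : D.rc (gX D.rc D.cc (fun _ : Unit => 1) c t ()) = max (D.rc 1 - t) 0 := by
        set v := max (D.rc 1 - t) 0 with hv
        have hset : (univ.filter fun b : Fin D.M => gocc D.rc D.cc (fun _ : Unit => 1) c t () b) =
            univ.filter fun b : Fin D.M => v < D.rc (1 + b) := by
          ext b
          simp only [mem_filter, mem_univ, true_and, ih]
          omega
        unfold gX
        rw [hset]
        obtain ⟨x, hx⟩ := D.rc_surj v (le_max_right _ _) (by
          have := (D.rc_mem 1).2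
          omega)
        have hex : ∃ x, D.rc x ≤ v := ⟨x, hx.le⟩
        set x0 := Nat.find hex with hx0
        have hx1 : D.rc x0 ≤ v := Nat.find_spec hex
        have hx2 : x0 ≤ x := Nat.find_min' hex hx.le
        have hx3 : D.rc x0 = v := le_antisymm hx1 (by rw [← hx]; exact D.rc_anti hx2)
        have hxM : x0 ≤ D.M := Nat.find_min' hex (by rw [D.rc_M _ le_rfl]; exact le_max_right _ _)
        have hlt : ∀ y, v < D.rc y ↔ y < x0 := by
          intro y
          constructor
          · intro h
            by_contra hcon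
            have := D.rc_anti (not_lt.1 hcon)
            omega
          · intro h
            have := Nat.find_min hex h
            omega
        rcases Nat.eq_zero_or_pos t with ht | ht
        · -- at time zero
          have hv1 : v = D.rc 1 := by rw [hv, ht]; simp; omega
          have he : (univ.filter fun b : Fin D.M => v < D.rc (1 + b)) = ∅ := by
            rw [filter_eq_empty_iff]
            intro b _
            have := D.rc_anti (Nat.le_add_right 1 (b : ℕ))
            omega
          rw [he, hv1]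
          simp
        · have hv1 : v < D.rc 1 := by omega
          have hx4 : 1 < x0 := (hlt 1).1 hv1
          have hcard : #{b : Fin D.M | v < D.rc (1 + b)} = x0 - 1 := by
            have h2 : #{b : Fin D.M | v < D.rc (1 + b)} =
                #((range D.M).filter fun b => v < D.rc (1 + b)) := by
              convert fin_card D.M (fun b => v < D.rc (1 + b))
            rw [h2]
            have h3 : (range D.M).filter (fun b => v < D.rc (1 + b)) = range (x0 - 1) := by
              ext b
              rw [mem_filter, mem_range, mem_range, hlt]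
              omega
            rw [h3, card_range]
          rw [hcard, show 1 + (x0 - 1) = x0 by omega]
          exact hx3
      by_cases hg : gocc D.rc D.cc (fun _ : Unit => 1) c t () b
      · have h2 := (ih b).1 hg
        refine ⟨fun _ => ⟨h2.1, ?_⟩, fun _ => gocc_mono (Nat.le_succ t) hg⟩
        have h3 := h2.2
        push_cast
        omega
      · rw [gocc_succ D.rc_anti D.cc_mono, hX, hcpos]
        have hY : gY D.rc D.cc (fun _ : Unit => 1) c t b = c b := by
          unfold gY
          have : (univ.filter fun i : Unit => gocc D.rc D.cc (fun _ : Unit => 1) c t i b) = ∅ := by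
            rw [filter_eq_empty_iff]
            intro i _
            exact hg
          rw [this]; simp
        rw [hY]
        constructor
        · rintro ⟨-, h2, h3⟩
          rw [hcc b h2] at h3
          refine ⟨h2, ?_⟩
          push_cast
          omega
        · rintro ⟨h2, h3⟩
          refine ⟨Nat.one_pos, h2, ?_⟩
          rw [hcc b h2]
          push_cast at h3
          omega
  -- a column of class one
  obtain ⟨x, hx1, hx2⟩ : ∃ x, 1 ≤ x ∧ D.rc x = 1 := by
    obtain ⟨x, hx⟩ := D.rc_surj 1 (by omega) (by have := (D.rc_mem 1).2; omega)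
    rcases Nat.eq_zero_or_pos x with h | h
    · refine ⟨1, le_rfl, ?_⟩
      have := D.rc_anti (show x ≤ 1 by omega)
      omega
    · exact ⟨x, h, hx⟩
  have hxM : x < D.M := by
    by_contra hcon
    rw [D.rc_M x (not_lt.1 hcon)] at hx2
    omega
  have hbx : 1 + (x - 1) = x := by omega
  obtain ⟨τ, hτ, hT⟩ := exists_thin D (I := Unit) (J := Fin D.M) (fun _ => 1) c
    (T := (D.rc 1).toNat) (i0 := ()) (j0 := ⟨x - 1, by omega⟩)
    ((key _ _).2 (by simp only [hbx]; omega))
    (fun s hs hcon => by
      have := (key _ _).1 hcon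
      simp only [hbx] at this
      omega)
  exact ⟨τ, hτ, by omega⟩

/-- A finite spanning set has a spanning time. -/
theorem exists_spanningTime (hZ : IsZeroSet Z) {A : Set (ℕ × ℕ)} (hA : A.Finite)
    (hs : Spans Z A) : ∃ τ, IsSpanningTime Z A τ := by
  obtain ⟨D⟩ := exists_classData hZ
  obtain ⟨n, hn⟩ : ∃ n, ∀ x ∈ A, x.1 < n ∧ x.2 < n := by
    refine ⟨hA.toFinset.sup (fun x => x.1 + x.2) + 1, fun x hx => ?_⟩
    have := Finset.le_sup (f := fun x : ℕ × ℕ => x.1 + x.2) (hA.mem_toFinset.2 hx)
    omega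
  have hex := D.exists_full hn hs
  exact ⟨Nat.find hex, Nat.find_spec hex, fun t ht => Nat.find_min' hex ht⟩

theorem times_mono {k : ℕ} (hk : 1 ≤ k) : times 1 Z ⊆ times k Z := by
  rintro τ ⟨A, ⟨hA, hA'⟩, h⟩
  refine ⟨A, ⟨hA, fun x hx => ?_⟩, h⟩
  have : ((1 : ℕ) : ℕ∞) ≤ (k : ℕ∞) := by exact_mod_cast hk
  rcases hA' x hx with h | h
  · exact Or.inl (h.trans this)
  · exact Or.inr (h.trans this)

theorem times_bdd (hZ : IsZeroSet Z) {k : ℕ} (hk : 1 ≤ k) : BddAbove (times k Z) := by
  obtain ⟨D⟩ := exists_classData hZ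
  refine ⟨2 * D.M + 1 + cst k D.p + 1, ?_⟩
  rintro τ ⟨A, hA, hs, hτ⟩
  obtain ⟨T0, _, h2, h3⟩ := upper D hk hA hs hτ
  omega

theorem isGreatest_mu (hZ : IsZeroSet Z) {k : ℕ} (hk : 1 ≤ k) :
    IsGreatest (times k Z) (mu k Z) := by
  obtain ⟨D⟩ := exists_classData hZ
  obtain ⟨τ, hτ, _⟩ := times_nonempty D
  exact ⟨Nat.sSup_mem ⟨τ, times_mono hk hτ⟩ (times_bdd hZ hk),
    fun _ h => le_csSup (times_bdd hZ hk) h⟩

theorem mu_le (hZ : IsZeroSet Z) {k : ℕ} (hk : 1 ≤ k) :
    mu k Z ≤ (48 * k ^ 2 + 52 * k + 15) * mu 1 Z := by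
  obtain ⟨D⟩ := exists_classData hZ
  have hg1 := isGreatest_mu hZ (le_refl 1)
  obtain ⟨A, hA, hs, hτ⟩ := (isGreatest_mu hZ hk).1
  obtain ⟨T0, h1, -, h3⟩ := upper D hk hA hs hτ
  obtain ⟨τ1, hτ1, h4⟩ := times_nonempty D
  obtain ⟨τ2, hτ2, h5⟩ := classes_le D
  have h6 := hg1.2 hτ1
  have h7 := hg1.2 hτ2
  have h8 : T0 ≤ mu 1 Z := by
    rcases h1 with h | ⟨τ', hτ', h⟩
    · omega
    · exact h.trans (hg1.2 hτ')
  set m := mu 1 Z with hm
  have hp : D.p ≤ 2 * m := by omega
  have h9 : cst k D.p ≤ (3 * (8 * k + 3) + 1) * (2 * m * k) + (8 * k + 3) * (2 * m) +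
      (2 * (8 * k + 3) + 1) * m := by
    unfold cst
    have a1 : (3 * (8 * k + 3) + 1) * (D.p * k) ≤ (3 * (8 * k + 3) + 1) * (2 * m * k) :=
      Nat.mul_le_mul_left _ (Nat.mul_le_mul_right _ hp)
    have a2 : (8 * k + 3) * D.p ≤ (8 * k + 3) * (2 * m) := Nat.mul_le_mul_left _ hp
    have a3 : (2 * (8 * k + 3) + 1) * 1 ≤ (2 * (8 * k + 3) + 1) * m :=
      Nat.mul_le_mul_left _ (by omega)
    omega
  calc mu k Z ≤ m + ((3 * (8 * k + 3) + 1) * (2 * m * k) + (8 * k + 3) * (2 * m) +
      (2 * (8 * k + 3) + 1) * m) + m := by omega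
    _ = (48 * k ^ 2 + 52 * k + 15) * m := by ring

end Pool.Agent.helper55.NG
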